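import Pool.Agent.Work.MP_db9399_sx.Pre

/-!
# MP_db9399, final assembly of phase 2: the block AVB (availability, large outer degree)
-/

set_option autoImplicit false

namespace Pool.Agent.Work.MP_db9399_sx.helper12

open Finset Classical
open Pool.Agent.Work.MP_db9399_all (nb)
open Pool.Agent.Work.MP_db9399_sl (InS Same Out)
open Pool.Agent.Work.MP_db9399_sw (shs sms ac avl Gxh Grh)
open Pool.Agent.Work.MP_db9399_vt (fb outer)
open Pool.Agent.Work.MP_db9399_sx

universe u

theorem mem_fb {V : Type u} [Fintype V] {C : Type} {G : SimpleGraph V} {W : Finset V} {c : V → C}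
    {Y : Finset V} {b : C} {v : V} :
    v ∈ fb G W c Y b ↔ v ∈ Y ∧ ∃ w ∈ W, G.Adj v w ∧ c w = b := by
  unfold fb
  exact mem_filter

theorem stmt_AVB : Stmt_AVB.{u} := by
  intro a ha ha1
  refine ⟨a / 10, by positivity, ?_⟩
  intro δ x hδ hx hxa
  refine ⟨max 1 ⌈4 / a⌉₊, ?_⟩
  intro V _ k θ θ' η π c ε G EH d Ys UH Hs Gd c0 tu cc t E K0 C p aa Z hd hθ hG hO hOut Y hY hYs b
    hb hbF hbc
  have hd1 : 1 ≤ d := (le_max_left _ _).trans hd
  have hd2 : 4 / a ≤ d := (Nat.le_ceil _).trans (by exact_mod_cast (le_max_right _ _).trans hd)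
  rw [div_le_iff₀ ha] at hd2
  have hdpos : (0 : ℝ) < d := by exact_mod_cast hd1
  have hYY : Y ∈ Ys := by
    unfold shs at hY
    exact (mem_filter.1 hY).1
  set N := Y \ Hs with hN
  set F := fb G ((UH ∪ outer Ys) \ Y) cc N b with hF
  -- the colour is not dead
  have h1 : ((F.card : ℕ) : ℝ) < (1 - a) * N.card := by
    unfold Fyd at hbF
    rw [if_neg hYs, mem_filter, not_and, not_le] at hbF
    exact hbF hb
  -- the size of `Y \ Hs`
  have h2 : (98 / 100 : ℝ) * d ≤ N.card := by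
    have e1 : (Y ∩ Hs).card + N.card = Y.card := by
      rw [hN]; exact Finset.card_inter_add_card_sdiff Y Hs
    have e1' : ((Y ∩ Hs).card : ℝ) + N.card = Y.card := by exact_mod_cast e1
    have e2 : (10 : ℝ) ^ 4 * (Y ∩ Hs).card ≤ Y.card := by exact_mod_cast hG.hsc Y hYY
    have e3 := hG.low Y hYY
    have e4 : (99 / 100 : ℝ) * d ≤ (1 - θ) * d :=
      mul_le_mul_of_nonneg_right (by linarith) hdpos.le
    linarith
  have h3 : F.card + (N \ F).card = N.card := by
    have hsub : F ⊆ N := fun v hv => (mem_fb.1 hv).1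
    have := Finset.card_sdiff_add_card_eq_card hsub
    omega
  have h3' : (F.card : ℝ) + (N \ F).card = N.card := by exact_mod_cast h3
  have h4 : a * (98 / 100 * d) ≤ (N \ F).card := by
    have := mul_le_mul_of_nonneg_left h2 ha.le
    linarith
  -- the remaining vertices are available
  have h5 : N \ F ⊆ avl G Ys UH cc E Y b ∪ ((Y ∩ UH) ∪ ((Y ∩ Z) ∪
      Y.filter (fun v => v ∉ Z ∧ b ∈ E v))) := by
    intro v hv
    obtain ⟨hvN, hvF⟩ := mem_sdiff.1 hv
    have hvY : v ∈ Y := (mem_sdiff.1 hvN).1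
    by_cases hU : v ∈ UH
    · exact mem_union_right _ (mem_union_left _ (mem_inter.2 ⟨hvY, hU⟩))
    by_cases hZ : v ∈ Z
    · exact mem_union_right _ (mem_union_right _ (mem_union_left _ (mem_inter.2 ⟨hvY, hZ⟩)))
    by_cases hE : b ∈ E v
    · exact mem_union_right _ (mem_union_right _ (mem_union_right _
        (mem_filter.2 ⟨hvY, hZ, hE⟩)))
    refine mem_union_left _ ?_
    unfold avl
    refine mem_filter.2 ⟨hvY, hU, hE, ?_⟩
    intro hac
    unfold ac at hac
    obtain ⟨w, hw, hwb⟩ := mem_image.1 hac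
    obtain ⟨hw1, hw2⟩ := mem_filter.1 hw
    have hadj : G.Adj v w := by simpa [nb] using hw1
    by_cases hwY : w ∈ Y
    · have hwU : w ∈ UH := hw2 ⟨Y, hYY, hwY⟩
      refine hbc (mem_image.2 ⟨w, mem_inter.2 ⟨hwY, hwU⟩, ?_⟩)
      rw [← hO.cU w hwU]
      exact hwb
    · refine hvF (mem_fb.2 ⟨hvN, w, mem_sdiff.2 ⟨?_, hwY⟩, hadj, hwb⟩)
      by_cases hwS : InS Ys w
      · exact mem_union_left _ (hw2 hwS)
      · refine mem_union_right _ ?_
        unfold outer
        exact mem_filter.2 ⟨mem_univ _, hwS⟩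
  have h6 : ((N \ F).card : ℝ) ≤ (avl G Ys UH cc E Y b).card + (2 + (δ * d + δ * d)) := by
    have e1 : (N \ F).card ≤ (avl G Ys UH cc E Y b).card + ((Y ∩ UH).card + ((Y ∩ Z).card +
        (Y.filter (fun v => v ∉ Z ∧ b ∈ E v)).card)) :=
      (Finset.card_le_card h5).trans ((Finset.card_union_le _ _).trans (Nat.add_le_add_left
        ((Finset.card_union_le _ _).trans (Nat.add_le_add_left (Finset.card_union_le _ _) _)) _))
    have e1' : ((N \ F).card : ℝ) ≤ (avl G Ys UH cc E Y b).card + ((Y ∩ UH).card + ((Y ∩ Z).card +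
        (Y.filter (fun v => v ∉ Z ∧ b ∈ E v)).card)) := by exact_mod_cast e1
    have e2 : ((Y ∩ UH).card : ℝ) ≤ 2 := by exact_mod_cast hG.uh2 Y hYY
    have e3 := hOut.ZY Y hYY
    have e4 := hOut.ld Y hYY b
    linarith
  have h7 : δ * d ≤ a / 10 * d := mul_le_mul_of_nonneg_right hδ hdpos.le
  have h8 : x * d ≤ a / 10 * d := mul_le_mul_of_nonneg_right hxa hdpos.le
  nlinarith
end Pool.Agent.Work.MP_db9399_sx.helper12
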