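import Pool.Agent.Work.MP_db9399_sw.Guard
import Pool.Agent.Work.MP_db9399_all_helper6.LLLI
import Pool.Agent.Work.MP_db9399_sw_helper84.Prob

/-!
# Random guards, version 2 (light / heavy vertices, one more output `gss`)

Adapted (helper12) from Work/MP_db9399_sw_helper84/GUARD.lean (helper84).
-/

set_option autoImplicit false
set_option linter.unusedSectionVars false

namespace Pool.Agent.Work.MP_db9399_sx.helper12.GA

open Finset Classical
open Pool.Agent.Work.MP_db9399_all (nb pr DepOnI PackI stmt_LLLI)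
open Pool.Agent.Work.MP_db9399_sl (InS Same Gss)
open Pool.Agent.Work.MP_db9399_sw
open Pool.Agent.Work.MP_db9399_sw.GUARDAux

universe u

theorem large (K : ℝ) : ∃ d0 : ℕ, ∀ d : ℕ, d0 ≤ d → K ≤ Real.log d ∧
    1000 * Real.log d ^ 21 ≤ (d : ℝ) := by
  have h1 : ∀ᶠ x : ℝ in Filter.atTop, K ≤ Real.log x :=
    Real.tendsto_log_atTop.eventually_ge_atTop K
  have h2 : ∀ᶠ x : ℝ in Filter.atTop, 1000 * Real.log x ^ 21 ≤ x := by
    have h := (isLittleO_log_rpow_atTop (r := 1 / 42) (by norm_num)).bound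
      (show (0 : ℝ) < 1 / 1000 by norm_num)
    have h3 : ∀ᶠ x : ℝ in Filter.atTop, 1 ≤ x := Filter.eventually_ge_atTop 1
    filter_upwards [h, h3] with x hx hx1
    have hx0 : (0 : ℝ) < x := by linarith
    have hl0 : 0 ≤ Real.log x := Real.log_nonneg hx1
    rw [Real.norm_of_nonneg hl0, Real.norm_of_nonneg (by positivity)] at hx
    have h4 : Real.log x ^ 21 ≤ (1 / 1000 * x ^ (1 / 42 : ℝ)) ^ 21 :=
      pow_le_pow_left₀ hl0 hx 21
    have h5 : (x ^ (1 / 42 : ℝ)) ^ 21 = x ^ (1 / 2 : ℝ) := by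
      rw [← Real.rpow_natCast, ← Real.rpow_mul hx0.le]
      norm_num
    have h6 : x ^ (1 / 2 : ℝ) ≤ x := by
      calc x ^ (1 / 2 : ℝ) ≤ x ^ (1 : ℝ) := Real.rpow_le_rpow_of_exponent_le hx1 (by norm_num)
        _ = x := Real.rpow_one x
    have h7 : 0 ≤ x ^ (1 / 2 : ℝ) := by positivity
    rw [mul_pow, h5] at h4
    have h8 : 1000 * ((1 / 1000 : ℝ) ^ 21 * x ^ (1 / 2 : ℝ)) ≤ x := by
      have : 1000 * ((1 / 1000 : ℝ) ^ 21) ≤ 1 := by norm_num
      nlinarith
    linarith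
  obtain ⟨x0, hx0⟩ := Filter.eventually_atTop.1 (h1.and h2)
  exact ⟨⌈x0⌉₊, fun d hd => hx0 d (Nat.ceil_le.1 hd)⟩

theorem card_lt (M t : ℕ) (h : t ≤ M) :
    (univ.filter (fun j : Fin M => (j : ℕ) < t)).card = t := by
  rw [← Fintype.card_subtype]
  have e : {j : Fin M // (j : ℕ) < t} ≃ Fin t :=
    { toFun := fun j => ⟨j.1, j.2⟩
      invFun := fun j => ⟨⟨j, lt_of_lt_of_le j.2 h⟩, j.2⟩
      left_inv := fun _ => rfl
      right_inv := fun _ => rfl }
  rw [Fintype.card_congr e, Fintype.card_fin]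

theorem dep_hits {V : Type u} [Fintype V] {M : ℕ} (S : Finset V) (B : V → Finset (Fin M))
    (C : ℕ → Prop) :
    DepOnI S (fun f : V → Fin M => C (S.filter (fun y => f y ∈ B y)).card) := by
  intro f f' h
  have : S.filter (fun y => f y ∈ B y) = S.filter (fun y => f' y ∈ B y) :=
    filter_congr fun y hy => by rw [h y hy]
  simp only [this]

section graph

variable {V : Type u} [Fintype V] (G EH : SimpleGraph V) (d : ℕ) (Hs : Finset V)
  (Ys : Finset (Finset V)) (UH : Finset V)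

/-- possible guards -/
def el (v : V) : Prop :=
  (v ∉ UH ∧ v ∉ Hs) ∧ (∃ Y ∈ sms G d Hs Ys, v ∈ Y) ∧ (od G Ys v : ℝ) ≤ Real.log d ^ 5

/-- the spot of a vertex -/
noncomputable def spot (v : V) : Finset V :=
  if h : ∃ Y ∈ sms G d Hs Ys, v ∈ Y then h.choose else ∅

/-- guard if the random number is in this set -/
noncomputable def Bs (v : V) : Finset (Fin (d ^ 2)) :=
  if el G d Hs Ys UH v then univ.filter (fun j => (j : ℕ) <
    ⌊((d ^ 2 : ℕ) : ℝ) * (Real.log d ^ 8 / (spot G d Hs Ys v).card)⌋₊) else ∅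

variable {G d Hs Ys UH}

theorem mem_sms {Y : Finset V} (h : Y ∈ sms G d Hs Ys) :
    Y ∈ Ys ∧ Y.card < d ∧ wl G d Hs Y < Real.log d ^ 3 * Y.card := by
  unfold sms shs at h
  rw [mem_filter, mem_filter] at h
  exact ⟨h.1.1, h.1.2, h.2⟩

theorem spot_eq (hdis : ∀ Y ∈ Ys, ∀ Y' ∈ Ys, Y ≠ Y' → Disjoint Y Y') {Y : Finset V} {v : V}
    (hY : Y ∈ sms G d Hs Ys) (hv : v ∈ Y) : spot G d Hs Ys v = Y := by
  have h : ∃ Y ∈ sms G d Hs Ys, v ∈ Y := ⟨Y, hY, hv⟩
  unfold spot
  rw [dif_pos h]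
  by_contra hne
  exact disjoint_left.1 (hdis _ (mem_sms h.choose_spec.1).1 _ (mem_sms hY).1 hne)
    h.choose_spec.2 hv

theorem same_iff (hdis : ∀ Y ∈ Ys, ∀ Y' ∈ Ys, Y ≠ Y' → Disjoint Y Y') {Y : Finset V} {v w : V}
    (hY : Y ∈ Ys) (hv : v ∈ Y) : Same Ys v w ↔ w ∈ Y := by
  constructor
  · rintro ⟨Y', hY', hv', hw⟩
    by_contra hne
    have : Y' ≠ Y := fun h => hne (h ▸ hw)
    exact disjoint_left.1 (hdis _ hY' _ hY this) hv' hv
  · exact fun hw => ⟨Y, hY, hv, hw⟩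

theorem od_le (hdeg : ∀ v, (nb G v).card ≤ d)
    (hdis : ∀ Y ∈ Ys, ∀ Y' ∈ Ys, Y ≠ Y' → Disjoint Y Y') {Y : Finset V} {v : V}
    (hY : Y ∈ Ys) (hv : v ∈ Y) : (od G Ys v : ℝ) ≤ (d : ℝ) - (nb G v ∩ Y).card := by
  have h1 : od G Ys v + (nb G v ∩ Y).card ≤ (nb G v).card := by
    unfold od
    rw [← card_union_of_disjoint]
    · refine card_le_card (union_subset (filter_subset _ _) inter_subset_left)
    · rw [disjoint_left]
      intro w hw hw'
      rw [mem_filter] at hw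
      rw [mem_inter] at hw'
      exact hw.2 ((same_iff hdis hY hv).2 hw'.2)
  have h2 := h1.trans (hdeg v)
  have h3 : (od G Ys v : ℝ) + (nb G v ∩ Y).card ≤ d := by exact_mod_cast h2
  linarith

theorem sum_od (hdeg : ∀ v, (nb G v).card ≤ d)
    (hdis : ∀ Y ∈ Ys, ∀ Y' ∈ Ys, Y ≠ Y' → Disjoint Y Y') {Y : Finset V}
    (hY : Y ∈ Ys) : ∑ v ∈ Y, (od G Ys v : ℝ) ≤ wt G d Y :=
  sum_le_sum fun _ hv => od_le hdeg hdis hY hv

/-- neighbours in other spots -/
theorem gss_sub (v : V) : nb (Gss G EH Ys) v ⊆ (nb G v).filter (fun w => ¬ Same Ys v w) := by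
  intro w hw
  unfold nb at hw ⊢
  rw [mem_filter] at hw
  rw [mem_filter, mem_filter]
  exact ⟨⟨mem_univ w, hw.2.1⟩, hw.2.2.2.2.1⟩

theorem gss_card (v : V) : (nb (Gss G EH Ys) v).card ≤ od G Ys v :=
  card_le_card (gss_sub EH v)

theorem mem_nb {G' : SimpleGraph V} {v w : V} : w ∈ nb G' v ↔ G'.Adj v w := by
  unfold nb
  rw [mem_filter]
  exact ⟨fun h => h.2, fun h => ⟨mem_univ w, h⟩⟩

/-- double counting -/
theorem dbl (G' : SimpleGraph V) (Y Gd : Finset V) :
    ∑ v ∈ Y, (nb G' v ∩ Gd).card = ∑ s ∈ Gd, (nb G' s ∩ Y).card := by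
  have h1 : ∀ (v : V) (A : Finset V), (nb G' v ∩ A).card = ∑ s ∈ A, if G'.Adj v s then 1 else 0 := by
    intro v A
    rw [← card_filter]
    congr 1
    ext s
    rw [mem_inter, mem_nb, mem_filter, and_comm]
  simp only [h1]
  rw [sum_comm]
  refine sum_congr rfl fun s _ => sum_congr rfl fun v _ => ?_
  by_cases h : G'.Adj v s
  · rw [if_pos h, if_pos h.symm]
  · rw [if_neg h, if_neg fun h' => h h'.symm]

theorem sum_odl (hdeg : ∀ v, (nb G v).card ≤ d)
    (hdis : ∀ Y ∈ Ys, ∀ Y' ∈ Ys, Y ≠ Y' → Disjoint Y Y') {Y : Finset V}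
    (hY : Y ∈ Ys) : ∑ v ∈ Y \ Hs, (od G Ys v : ℝ) ≤ wl G d Hs Y :=
  sum_le_sum fun _ hv => od_le hdeg hdis hY (mem_sdiff.1 hv).1

theorem nel_card {η : ℝ} (hl : 0 < Real.log d) (hdeg : ∀ v, (nb G v).card ≤ d)
    (hdis : ∀ Y ∈ Ys, ∀ Y' ∈ Ys, Y ≠ Y' → Disjoint Y Y')
    (hUH : ∀ Y ∈ Ys, (Y ∩ UH).card ≤ 2) (hHs : ∀ Y ∈ Ys, ((Y ∩ Hs).card : ℝ) ≤ η * Y.card)
    {Y : Finset V} (hY : Y ∈ sms G d Hs Ys) :
    ((Y.filter (fun v => ¬ el G d Hs Ys UH v)).card : ℝ) ≤
      2 + Y.card / Real.log d ^ 2 + η * Y.card := by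
  obtain ⟨hY1, hY2, hY3⟩ := mem_sms hY
  set H := (Y \ Hs).filter (fun v => Real.log d ^ 5 < (od G Ys v : ℝ)) with hH
  have h1 : Y.filter (fun v => ¬ el G d Hs Ys UH v) ⊆ (Y ∩ UH) ∪ (H ∪ (Y ∩ Hs)) := by
    intro v hv
    rw [mem_filter] at hv
    rw [mem_union, mem_union, mem_inter, hH, mem_filter, mem_inter, mem_sdiff]
    by_cases hu : v ∈ UH
    · exact Or.inl ⟨hv.1, hu⟩
    · by_cases hh : v ∈ Hs
      · exact Or.inr (Or.inr ⟨hv.1, hh⟩)
      · refine Or.inr (Or.inl ⟨⟨hv.1, hh⟩, ?_⟩)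
        by_contra hc
        exact hv.2 ⟨⟨hu, hh⟩, ⟨Y, hY, hv.1⟩, not_lt.1 hc⟩
  have h2 : ((Y.filter (fun v => ¬ el G d Hs Ys UH v)).card : ℝ) ≤
      (Y ∩ UH).card + (H.card + (Y ∩ Hs).card) := by
    exact_mod_cast (card_le_card h1).trans ((card_union_le _ _).trans
      (Nat.add_le_add_left (card_union_le _ _) _))
  have h3 : ((Y ∩ UH).card : ℝ) ≤ 2 := by exact_mod_cast hUH Y hY1
  have h3' := hHs Y hY1
  have h4 : (H.card : ℝ) * Real.log d ^ 5 ≤ Real.log d ^ 3 * Y.card := by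
    calc (H.card : ℝ) * Real.log d ^ 5 = ∑ _v ∈ H, Real.log d ^ 5 := by
          rw [sum_const, nsmul_eq_mul]
      _ ≤ ∑ v ∈ H, (od G Ys v : ℝ) := sum_le_sum fun v hv => by
          rw [hH, mem_filter] at hv
          exact hv.2.le
      _ ≤ ∑ v ∈ Y \ Hs, (od G Ys v : ℝ) :=
          sum_le_sum_of_subset_of_nonneg (filter_subset _ _) fun _ _ _ => by positivity
      _ ≤ wl G d Hs Y := sum_odl hdeg hdis hY1
      _ ≤ _ := hY3.le
  have h5 : (H.card : ℝ) ≤ Y.card / Real.log d ^ 2 := by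
    rw [le_div_iff₀ (by positivity)]
    have h6 : (H.card : ℝ) * Real.log d ^ 2 * Real.log d ^ 3 ≤ Y.card * Real.log d ^ 3 := by
      calc _ = (H.card : ℝ) * Real.log d ^ 5 := by ring
        _ ≤ _ := h4
        _ = _ := by ring
    exact le_of_mul_le_mul_right h6 (by positivity)
  linarith

variable (hl : 1 ≤ Real.log d) (hld : 1000 * Real.log d ^ 21 ≤ (d : ℝ))
  (hdis : ∀ Y ∈ Ys, ∀ Y' ∈ Ys, Y ≠ Y' → Disjoint Y Y')
  (hcard : ∀ Y ∈ Ys, (9 / 10 : ℝ) * d ≤ (Y.card : ℝ) ∧ Y.card ≤ 2 * d)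

include hl hld hdis hcard in
theorem Bs_card {Y : Finset V} {v : V} (hY : Y ∈ sms G d Hs Ys) (hv : v ∈ Y) :
    ((Bs G d Hs Ys UH v).card : ℝ) / (d ^ 2 : ℕ) ≤ Real.log d ^ 8 / Y.card ∧
      (el G d Hs Ys UH v → Real.log d ^ 8 / Y.card - 1 / (d ^ 2 : ℕ) ≤
        ((Bs G d Hs Ys UH v).card : ℝ) / (d ^ 2 : ℕ)) := by
  have hd1 : (1000 : ℝ) ≤ d := by
    have : (1 : ℝ) ≤ Real.log d ^ 21 := one_le_pow₀ hl
    linarith
  have hd0 : (0 : ℝ) < d := by linarith
  have hM : (0 : ℝ) < ((d ^ 2 : ℕ) : ℝ) := by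
    push_cast
    positivity
  obtain ⟨hY1, hY2, hY3⟩ := mem_sms hY
  have hYc := (hcard Y hY1).1
  have hYp : (0 : ℝ) < Y.card := by linarith
  have hL : Real.log d ^ 8 ≤ Y.card := by
    have h1 : Real.log d ^ 8 ≤ Real.log d ^ 21 := pow_le_pow_right₀ hl (by norm_num)
    linarith
  by_cases he : el G d Hs Ys UH v
  · have hB : (Bs G d Hs Ys UH v).card = ⌊((d ^ 2 : ℕ) : ℝ) * (Real.log d ^ 8 / Y.card)⌋₊ := by
      unfold Bs
      rw [if_pos he, spot_eq hdis hY hv, card_lt]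
      refine Nat.floor_le_of_le ?_
      have : Real.log d ^ 8 / Y.card ≤ 1 := (div_le_one hYp).2 hL
      nlinarith
    rw [hB]
    constructor
    · rw [div_le_iff₀ hM, mul_comm]
      exact Nat.floor_le (by positivity)
    · intro _
      rw [le_div_iff₀ hM, sub_mul, one_div, inv_mul_cancel₀ hM.ne', mul_comm]
      exact (Nat.sub_one_lt_floor _).le
  · have hB : Bs G d Hs Ys UH v = ∅ := if_neg he
    rw [hB]
    constructor
    · simp only [card_empty, Nat.cast_zero, zero_div]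
      positivity
    · exact fun h => absurd h he

include hl hld hdis hcard in
theorem Bs_le (v : V) :
    ((Bs G d Hs Ys UH v).card : ℝ) / (d ^ 2 : ℕ) ≤ 10 / 9 * Real.log d ^ 8 / d := by
  have hd1 : (1000 : ℝ) ≤ d := by
    have : (1 : ℝ) ≤ Real.log d ^ 21 := one_le_pow₀ hl
    linarith
  have hd0 : (0 : ℝ) < d := by linarith
  by_cases he : el G d Hs Ys UH v
  · obtain ⟨Y, hY, hv⟩ := he.2.1
    refine ((Bs_card hl hld hdis hcard hY hv).1).trans ?_
    have hYc := (hcard Y (mem_sms hY).1).1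
    have hYp : (0 : ℝ) < Y.card := by linarith
    have h8 : 0 ≤ Real.log d ^ 8 := by positivity
    rw [div_le_div_iff₀ hYp hd0]
    nlinarith
  · have hB : Bs G d Hs Ys UH v = ∅ := if_neg he
    rw [hB]
    simp only [card_empty, Nat.cast_zero, zero_div]
    positivity

include hl hld hdis hcard in
theorem mean_le {Y S : Finset V} (hY : Y ∈ sms G d Hs Ys) (hS : S ⊆ Y) :
    mean S (Bs G d Hs Ys UH) ≤ S.card / Y.card * Real.log d ^ 8 := by
  unfold mean
  calc ∑ v ∈ S, ((Bs G d Hs Ys UH v).card : ℝ) / (d ^ 2 : ℕ)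
      ≤ ∑ _v ∈ S, Real.log d ^ 8 / Y.card :=
        sum_le_sum fun v hv => (Bs_card hl hld hdis hcard hY (hS hv)).1
    _ = _ := by
        rw [sum_const, nsmul_eq_mul]
        ring

include hl hld hdis hcard in
theorem mean_ge {ε : ℝ} (hε : 0 < ε) (hlε : 1000 / ε ≤ Real.log d)
    (hdeg : ∀ v, (nb G v).card ≤ d) (hUH : ∀ Y ∈ Ys, (Y ∩ UH).card ≤ 2)
    (hHs : ∀ Y ∈ Ys, ((Y ∩ Hs).card : ℝ) ≤ ε / 100 * Y.card) {Y S : Finset V}
    (hY : Y ∈ sms G d Hs Ys) (hS : S ⊆ Y) :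
    S.card / Y.card * Real.log d ^ 8 - ε / 2 * Real.log d ^ 8 ≤ mean S (Bs G d Hs Ys UH) := by
  have hd1 : (1000 : ℝ) ≤ d := by
    have : (1 : ℝ) ≤ Real.log d ^ 21 := one_le_pow₀ hl
    linarith
  have hd0 : (0 : ℝ) < d := by linarith
  obtain ⟨hY1, hY2, hY3⟩ := mem_sms hY
  have hYc := (hcard Y hY1).1
  have hYp : (0 : ℝ) < Y.card := by linarith
  have hYd : (Y.card : ℝ) ≤ d := by exact_mod_cast hY2.le
  have h8 : 1 ≤ Real.log d ^ 8 := one_le_pow₀ hl
  have hl0 : 0 < Real.log d := by linarith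
  have hM : (0 : ℝ) < ((d ^ 2 : ℕ) : ℝ) := by
    push_cast
    positivity
  -- every vertex
  have h1 : ∀ v ∈ S, Real.log d ^ 8 / Y.card - 1 / (d ^ 2 : ℕ) -
      (if el G d Hs Ys UH v then 0 else Real.log d ^ 8 / Y.card) ≤
      ((Bs G d Hs Ys UH v).card : ℝ) / (d ^ 2 : ℕ) := by
    intro v hv
    split_ifs with he
    · have := (Bs_card hl hld hdis hcard hY (hS hv)).2 he
      linarith
    · have h2 : 0 ≤ ((Bs G d Hs Ys UH v).card : ℝ) / (d ^ 2 : ℕ) := by positivity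
      have h3 : 0 ≤ (1 : ℝ) / (d ^ 2 : ℕ) := by positivity
      linarith
  have h2 := sum_le_sum h1
  rw [sum_sub_distrib, sum_sub_distrib, sum_const, sum_const, nsmul_eq_mul, nsmul_eq_mul] at h2
  have h3 : ∑ v ∈ S, (if el G d Hs Ys UH v then 0 else Real.log d ^ 8 / Y.card) ≤
      (2 + Y.card / Real.log d ^ 2 + ε / 100 * Y.card) * (Real.log d ^ 8 / Y.card) := by
    calc ∑ v ∈ S, (if el G d Hs Ys UH v then 0 else Real.log d ^ 8 / (Y.card : ℝ))
        ≤ ∑ v ∈ Y, (if el G d Hs Ys UH v then 0 else Real.log d ^ 8 / (Y.card : ℝ)) := by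
          refine sum_le_sum_of_subset_of_nonneg hS fun v _ _ => ?_
          split_ifs
          · exact le_rfl
          · positivity
      _ = ∑ v ∈ Y.filter (fun v => ¬ el G d Hs Ys UH v), Real.log d ^ 8 / (Y.card : ℝ) := by
          rw [sum_filter]
          refine sum_congr rfl fun v _ => ?_
          by_cases he : el G d Hs Ys UH v
          · rw [if_pos he, if_neg (not_not.2 he)]
          · rw [if_neg he, if_pos he]
      _ = ((Y.filter (fun v => ¬ el G d Hs Ys UH v)).card : ℝ) * (Real.log d ^ 8 / Y.card) := by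
          rw [sum_const, nsmul_eq_mul]
      _ ≤ _ := mul_le_mul_of_nonneg_right (nel_card hl0 hdeg hdis hUH hHs hY) (by positivity)
  have h4 : (S.card : ℝ) * (1 / (d ^ 2 : ℕ)) ≤ ε / 8 * Real.log d ^ 8 := by
    have h5 : (S.card : ℝ) ≤ d := (by exact_mod_cast card_le_card hS : (S.card : ℝ) ≤ Y.card).trans hYd
    have h6 : (1 : ℝ) / d ≤ ε / 8 := by
      rw [div_le_div_iff₀ hd0 (by norm_num)]
      have h7 : 1000 ≤ Real.log d * ε := by
        rwa [div_le_iff₀ hε] at hlε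
      have h9 : Real.log d ≤ d := (Real.log_le_sub_one_of_pos hd0).trans (by linarith)
      nlinarith
    have h7 : (S.card : ℝ) * (1 / (d ^ 2 : ℕ)) ≤ 1 / d := by
      push_cast
      rw [mul_one_div, div_le_div_iff₀ (by positivity) hd0]
      nlinarith
    have h10 : ε / 8 ≤ ε / 8 * Real.log d ^ 8 := by
      have : 0 < ε / 8 := by positivity
      nlinarith
    linarith
  have h5 : (2 + Y.card / Real.log d ^ 2 + ε / 100 * Y.card) * (Real.log d ^ 8 / Y.card) ≤
      ε / 4 * Real.log d ^ 8 := by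
    have e : (2 + Y.card / Real.log d ^ 2 + ε / 100 * Y.card) * (Real.log d ^ 8 / Y.card) =
        (2 / Y.card + 1 / Real.log d ^ 2 + ε / 100) * Real.log d ^ 8 := by
      field_simp
    rw [e]
    refine mul_le_mul_of_nonneg_right ?_ (by positivity)
    have h7 : 1000 ≤ Real.log d * ε := by
      rwa [div_le_iff₀ hε] at hlε
    have h9 : Real.log d ≤ d / 1000 := by
      have : Real.log d ^ 1 ≤ Real.log d ^ 21 := pow_le_pow_right₀ hl (by norm_num)
      rw [pow_one] at this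
      linarith
    have h10 : 2 / (Y.card : ℝ) ≤ ε / 10 := by
      rw [div_le_div_iff₀ hYp (by norm_num)]
      nlinarith
    have h11 : 1 / Real.log d ^ 2 ≤ ε / 10 := by
      rw [div_le_div_iff₀ (by positivity) (by norm_num)]
      nlinarith
    linarith
  have h6 : (S.card : ℝ) * (Real.log d ^ 8 / Y.card) = S.card / Y.card * Real.log d ^ 8 := by
    ring
  unfold mean
  rw [h6] at h2
  have h12 : 0 < ε * Real.log d ^ 8 := by positivity
  linarith

end graph

/-- weight of the neighbours of `s` in `Y` -/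
noncomputable def aw {V : Type u} [Fintype V] (G EH : SimpleGraph V) (Ys : Finset (Finset V))
    (Y : Finset V) (s : V) : ℝ := ((nb (Gss G EH Ys) s ∩ Y).card : ℝ)

/-- possible guards with a neighbour in `Y` -/
noncomputable def ssY {V : Type u} [Fintype V] (G EH : SimpleGraph V) (d : ℕ) (Hs : Finset V)
    (Ys : Finset (Finset V)) (UH Y : Finset V) : Finset V :=
  univ.filter (fun s => el G d Hs Ys UH s ∧ (nb (Gss G EH Ys) s ∩ Y).Nonempty)

/-- index type of the events -/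
abbrev Ev (V J : Type u) : Type u := (V × V) ⊕ (Finset V ⊕ (Finset V ⊕ (V ⊕ J)))

section ev

variable {V : Type u} [Fintype V] {J : Type u} [Fintype J] (ε : ℝ) (G EH : SimpleGraph V)
  (d : ℕ) (Hs : Finset V) (Ys : Finset (Finset V)) (UH : Finset V) (S YJ : J → Finset V)

/-- scopes -/
noncomputable def Sc : Ev V J → Finset V
  | Sum.inl p => if el G d Hs Ys UH p.1 ∧ el G d Hs Ys UH p.2 ∧ (Gss G EH Ys).Adj p.1 p.2 then
      {p.1, p.2} else ∅
  | Sum.inr (Sum.inl Y) => if Y ∈ sms G d Hs Ys then Y else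
      if Y ∈ shs d Ys then ssY G EH d Hs Ys UH (Y \ Hs) else ∅
  | Sum.inr (Sum.inr (Sum.inl Y)) => if Y ∈ shs d Ys then ssY G EH d Hs Ys UH Y else ∅
  | Sum.inr (Sum.inr (Sum.inr (Sum.inl w))) => nb G w
  | Sum.inr (Sum.inr (Sum.inr (Sum.inr j))) => S j

/-- weights -/
noncomputable def Wg : Ev V J → ℝ
  | Sum.inl _ => 10 * Real.log d ^ 16 / d ^ 2
  | _ => ((d : ℝ) ^ 12)⁻¹

/-- the properties -/
def Pg : Ev V J → (V → Fin (d ^ 2)) → Prop
  | Sum.inl p => fun f => el G d Hs Ys UH p.1 → el G d Hs Ys UH p.2 → (Gss G EH Ys).Adj p.1 p.2 →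
      ¬ (f p.1 ∈ Bs G d Hs Ys UH p.1 ∧ f p.2 ∈ Bs G d Hs Ys UH p.2)
  | Sum.inr (Sum.inl Y) => fun f => (Y ∈ sms G d Hs Ys →
      ((Y.filter (fun v => f v ∈ Bs G d Hs Ys UH v)).card : ℝ) ≤ 2 * Real.log d ^ 8) ∧
      (Y ∈ shs d Ys → Y ∉ sms G d Hs Ys → ∑ s ∈ ssY G EH d Hs Ys UH (Y \ Hs),
        (if f s ∈ Bs G d Hs Ys UH s then aw G EH Ys (Y \ Hs) s else 0) ≤ ε * wl G d Hs Y)
  | Sum.inr (Sum.inr (Sum.inl Y)) => fun f => Y ∈ shs d Ys →
      ∑ s ∈ ssY G EH d Hs Ys UH Y, (if f s ∈ Bs G d Hs Ys UH s then aw G EH Ys Y s else 0) ≤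
        ε * Real.log d ^ 8 * Y.card
  | Sum.inr (Sum.inr (Sum.inr (Sum.inl w))) => fun f =>
      (((nb G w).filter (fun v => f v ∈ Bs G d Hs Ys UH v)).card : ℝ) ≤ Real.log d ^ 9
  | Sum.inr (Sum.inr (Sum.inr (Sum.inr j))) => fun f =>
      |(((S j).filter (fun v => f v ∈ Bs G d Hs Ys UH v)).card : ℝ) -
        (S j).card / (YJ j).card * Real.log d ^ 8| ≤ ε * Real.log d ^ 8

end ev

theorem exp_le_inv {d : ℕ} (hd : (0 : ℝ) < d) {x : ℝ} (h : 12 * Real.log d ≤ x) :
    Real.exp (-x) ≤ ((d : ℝ) ^ 12)⁻¹ := by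
  have h1 : Real.exp (12 * Real.log d) = (d : ℝ) ^ 12 := by
    have h2 := Real.exp_nat_mul (Real.log d) 12
    rw [Real.exp_log hd] at h2
    rw [← h2]
    norm_num
  rw [← h1, ← Real.exp_neg]
  exact Real.exp_le_exp.2 (by linarith)

section packs

variable {V : Type u} [Fintype V] {J : Type u} [Fintype J] {ε : ℝ} {G EH : SimpleGraph V}
  {d : ℕ} {Hs : Finset V} {Ys : Finset (Finset V)} {UH : Finset V} {S YJ : J → Finset V}
  (hl : 1000 ≤ Real.log d) (hld : 1000 * Real.log d ^ 21 ≤ (d : ℝ))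
  (hdis : ∀ Y ∈ Ys, ∀ Y' ∈ Ys, Y ≠ Y' → Disjoint Y Y')
  (hcard : ∀ Y ∈ Ys, (9 / 10 : ℝ) * d ≤ (Y.card : ℝ) ∧ Y.card ≤ 2 * d)

include hl hld in
theorem basic : (1000 : ℝ) ≤ d ∧ 1000 * Real.log d ≤ d ∧
    1000 * Real.log d ≤ Real.log d ^ 8 ∧ (1000 : ℝ) ^ 7 * Real.log d ≤ Real.log d ^ 8 := by
  have h1 : (1 : ℝ) ≤ Real.log d := by linarith
  have h2 : (1 : ℝ) ≤ Real.log d ^ 21 := one_le_pow₀ h1
  have h3 : Real.log d ^ 1 ≤ Real.log d ^ 21 := pow_le_pow_right₀ h1 (by norm_num)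
  rw [pow_one] at h3
  have h4 : (1000 : ℝ) ^ 7 ≤ Real.log d ^ 7 := pow_le_pow_left₀ (by norm_num) hl 7
  have h5 : (1000 : ℝ) ^ 7 * Real.log d ≤ Real.log d ^ 8 := by
    rw [pow_succ (Real.log d) 7]
    exact mul_le_mul_of_nonneg_right h4 (by linarith)
  refine ⟨by linarith, by linarith, ?_, h5⟩
  have : (1000 : ℝ) * Real.log d ≤ 1000 ^ 7 * Real.log d :=
    mul_le_mul_of_nonneg_right (by norm_num) (by linarith)
  linarith

include hl hld hdis hcard in
theorem pack_ind (p : V × V) : PackI (M := d ^ 2) (1 / (d : ℝ)) (Sc G EH d Hs Ys UH S (Sum.inl p))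
    (Wg d (Sum.inl p : Ev V J)) (Pg ε G EH d Hs Ys UH S YJ (Sum.inl p)) := by
  obtain ⟨hd1, hd2, hL, _⟩ := basic hl hld
  have hd0 : (0 : ℝ) < d := by linarith
  have hdn : 0 < d := by exact_mod_cast hd0
  have h1 : (1 : ℝ) ≤ Real.log d := by linarith
  by_cases h : el G d Hs Ys UH p.1 ∧ el G d Hs Ys UH p.2 ∧ (Gss G EH Ys).Adj p.1 p.2
  · refine pack1 (Q := {p.1, p.2})
      (E := fun f => f p.1 ∈ Bs G d Hs Ys UH p.1 ∧ f p.2 ∈ Bs G d Hs Ys UH p.2) ?_ ?_ ?_ ?_ ?_
    · intro f f' hf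
      beta_reduce
      rw [hf p.1 (by simp), hf p.2 (by simp)]
    · exact ⟨p.1, by simp⟩
    · simp only [Sc]
      rw [if_pos h]
    · rw [two (pow_pos hdn 2) _ h.2.2.ne, card_pair h.2.2.ne]
      have hb1 := Bs_le (G := G) (Hs := Hs) (UH := UH) h1 hld hdis hcard p.1
      have hb2 := Bs_le (G := G) (Hs := Hs) (UH := UH) h1 hld hdis hcard p.2
      have hn2 : 0 ≤ ((Bs G d Hs Ys UH p.2).card : ℝ) / (d ^ 2 : ℕ) := by positivity
      have hb3 : ((Bs G d Hs Ys UH p.1).card : ℝ) / (d ^ 2 : ℕ) *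
          (((Bs G d Hs Ys UH p.2).card : ℝ) / (d ^ 2 : ℕ)) ≤
          (10 / 9 * Real.log d ^ 8 / d) * (10 / 9 * Real.log d ^ 8 / d) :=
        mul_le_mul hb1 hb2 hn2 (by positivity)
      have he : Real.exp (2 * (1 / (d : ℝ)) * ((2 : ℕ) : ℝ)) ≤ 3 := by
        have h5 : 2 * (1 / (d : ℝ)) * ((2 : ℕ) : ℝ) ≤ 1 := by
          push_cast
          rw [mul_one_div, div_mul_eq_mul_div, div_le_one hd0]
          linarith
        refine (Real.exp_le_exp.2 h5).trans ?_
        have := Real.exp_one_lt_d9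
        linarith
      refine (mul_le_mul hb3 he (Real.exp_pos _).le (by positivity)).trans ?_
      simp only [Wg]
      rw [show (10 / 9 * Real.log d ^ 8 / (d : ℝ)) * (10 / 9 * Real.log d ^ 8 / d) * 3 =
        (300 / 81 * Real.log d ^ 16) / d ^ 2 by field_simp; ring]
      refine div_le_div_of_nonneg_right ?_ (by positivity)
      have : 0 ≤ Real.log d ^ 16 := by positivity
      linarith
    · intro f hf
      exact fun _ _ _ => hf
  · refine pack0 ?_ fun f h1 h2 h3 => absurd ⟨h1, h2, h3⟩ h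
    simp only [Wg]
    positivity

include hl hld hdis hcard in
theorem pack_gss (hε : 0 < ε) (hlε : 1000 / ε ≤ Real.log d)
    (hdeg : ∀ v, (nb G v).card ≤ d) {Y : Finset V} (hYs : Y ∈ shs d Ys)
    (hYn : Y ∉ sms G d Hs Ys) : PackI (M := d ^ 2) (1 / (d : ℝ))
    (Sc G EH d Hs Ys UH S (Sum.inr (Sum.inl Y)))
    (Wg d (Sum.inr (Sum.inl Y) : Ev V J))
    (Pg ε G EH d Hs Ys UH S YJ (Sum.inr (Sum.inl Y))) := by
  obtain ⟨hd1, hd2, hL, hL7⟩ := basic hl hld
  have hd0 : (0 : ℝ) < d := by linarith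
  have hdn : 0 < d := by exact_mod_cast hd0
  have h1 : (1 : ℝ) ≤ Real.log d := by linarith
  have h8 : 0 < Real.log d ^ 8 := by positivity
  have hY' := hYs
  unfold shs at hY'
  rw [mem_filter] at hY'
  obtain ⟨hY1, hY2⟩ := hY'
  have hYc := (hcard _ hY1).1
  have hYp : (0 : ℝ) < Y.card := by linarith
  have hwl : Real.log d ^ 3 * Y.card ≤ wl G d Hs Y := by
    by_contra hcon
    refine hYn ?_
    unfold sms
    rw [mem_filter]
    exact ⟨hYs, not_le.1 hcon⟩
  have hw0 : 0 < wl G d Hs Y := lt_of_lt_of_le (by positivity) hwl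
  set w := wl G d Hs Y with hw
  rcases (ssY G EH d Hs Ys UH (Y \ Hs)).eq_empty_or_nonempty with h | h
  · refine pack0 ?_ fun f => ?_
    · simp only [Wg]
      positivity
    · simp only [Pg]
      rw [h, sum_empty]
      exact ⟨fun h => absurd h hYn, fun _ _ => by positivity⟩
  · -- total weight
    have haw0 : ∀ s, 0 ≤ aw G EH Ys (Y \ Hs) s := fun s => by
      unfold aw
      positivity
    have htot : ∑ s : V, aw G EH Ys (Y \ Hs) s ≤ w := by
      have h2 := dbl (Gss G EH Ys) (Y \ Hs) univ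
      have h3 : ∑ s : V, aw G EH Ys (Y \ Hs) s =
          ((∑ v ∈ Y \ Hs, (nb (Gss G EH Ys) v).card : ℕ) : ℝ) := by
        unfold aw
        rw [← Nat.cast_sum, ← h2]
        simp only [inter_univ]
      rw [h3, Nat.cast_sum]
      calc ∑ v ∈ Y \ Hs, ((nb (Gss G EH Ys) v).card : ℝ) ≤ ∑ v ∈ Y \ Hs, (od G Ys v : ℝ) :=
            sum_le_sum fun v _ => by exact_mod_cast gss_card (G := G) (Ys := Ys) EH v
        _ ≤ w := sum_odl hdeg hdis hY1
    have htotS : ∑ s ∈ ssY G EH d Hs Ys UH (Y \ Hs), aw G EH Ys (Y \ Hs) s ≤ w :=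
      (sum_le_sum_of_subset_of_nonneg (subset_univ _) fun s _ _ => haw0 s).trans htot
    have hcardS : ((ssY G EH d Hs Ys UH (Y \ Hs)).card : ℝ) ≤ w := by
      refine le_trans ?_ htotS
      rw [← nsmul_one, ← sum_const]
      refine sum_le_sum fun s hs => ?_
      unfold ssY at hs
      rw [mem_filter] at hs
      unfold aw
      exact_mod_cast card_pos.2 hs.2.2
    refine pack1 (Q := ssY G EH d Hs Ys UH (Y \ Hs))
      (E := fun f => ε * w ≤ ∑ s ∈ ssY G EH d Hs Ys UH (Y \ Hs),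
        (if f s ∈ Bs G d Hs Ys UH s then aw G EH Ys (Y \ Hs) s else 0)) ?_ h ?_ ?_ ?_
    · intro f f' hf
      have : ∑ s ∈ ssY G EH d Hs Ys UH (Y \ Hs),
          (if f s ∈ Bs G d Hs Ys UH s then aw G EH Ys (Y \ Hs) s else 0) =
          ∑ s ∈ ssY G EH d Hs Ys UH (Y \ Hs),
          (if f' s ∈ Bs G d Hs Ys UH s then aw G EH Ys (Y \ Hs) s else 0) :=
        sum_congr rfl fun s hs => by rw [hf s hs]
      beta_reduce
      rw [this]
    · simp only [Sc]
      rw [if_neg hYn, if_pos hYs]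
    · have h2 := wt_hits (pow_pos hdn 2) (ssY G EH d Hs Ys UH (Y \ Hs)) (Bs G d Hs Ys UH)
        (aw G EH Ys (Y \ Hs)) (Real.log d ^ 5) (ε * w) (by positivity) (fun s _ => haw0 s)
        (fun s hs => by
          unfold ssY at hs
          rw [mem_filter] at hs
          refine le_trans ?_ hs.2.1.2.2
          unfold aw
          exact_mod_cast (card_le_card inter_subset_left).trans (gss_card (G := G) (Ys := Ys) EH s))
      refine (mul_le_mul_of_nonneg_right h2 (Real.exp_pos _).le).trans ?_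
      rw [← Real.exp_add]
      simp only [Wg]
      have h3 : ∑ s ∈ ssY G EH d Hs Ys UH (Y \ Hs), aw G EH Ys (Y \ Hs) s *
          (((Bs G d Hs Ys UH s).card : ℝ) / (d ^ 2 : ℕ)) ≤
          w * (10 / 9 * Real.log d ^ 8 / d) := by
        calc _ ≤ ∑ s ∈ ssY G EH d Hs Ys UH (Y \ Hs),
                aw G EH Ys (Y \ Hs) s * (10 / 9 * Real.log d ^ 8 / d) :=
              sum_le_sum fun s _ => mul_le_mul_of_nonneg_left (Bs_le h1 hld hdis hcard s)
                (haw0 s)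
          _ = (∑ s ∈ ssY G EH d Hs Ys UH (Y \ Hs), aw G EH Ys (Y \ Hs) s) *
                (10 / 9 * Real.log d ^ 8 / d) := by
              rw [sum_mul]
          _ ≤ w * (10 / 9 * Real.log d ^ 8 / d) :=
              mul_le_mul_of_nonneg_right htotS (by positivity)
      have h9 : 1000 ≤ Real.log d * ε := by
        rwa [div_le_iff₀ hε] at hlε
      have hp : ∀ i : ℕ, 1 ≤ Real.log d ^ i := fun i => one_le_pow₀ h1
      have hεd : 1000000 * Real.log d ^ 20 ≤ ε * d := by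
        calc 1000000 * Real.log d ^ 20 = 1000 * (1000 * Real.log d ^ 20) := by ring
          _ ≤ (Real.log d * ε) * (1000 * Real.log d ^ 20) :=
              mul_le_mul_of_nonneg_right h9 (by positivity)
          _ = ε * (1000 * Real.log d ^ 21) := by ring
          _ ≤ ε * d := mul_le_mul_of_nonneg_left hld hε.le
      have hp8 : Real.log d ^ 8 ≤ Real.log d ^ 20 := pow_le_pow_right₀ h1 (by norm_num)
      have hp5 : Real.log d ^ 5 ≤ Real.log d ^ 20 := pow_le_pow_right₀ h1 (by norm_num)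
      have h4 : 10 / 9 * Real.log d ^ 8 / d ≤ ε / 8 := by
        rw [div_le_div_iff₀ hd0 (by norm_num)]
        have := hp 20
        linarith
      have h5 : (2 * (∑ s ∈ ssY G EH d Hs Ys UH (Y \ Hs), aw G EH Ys (Y \ Hs) s *
          (((Bs G d Hs Ys UH s).card : ℝ) / (d ^ 2 : ℕ))) - ε * w) /
          Real.log d ^ 5 ≤ -(3 / 4 * ε * w) / Real.log d ^ 5 := by
        refine div_le_div_of_nonneg_right ?_ (by positivity)
        have : w * (10 / 9 * Real.log d ^ 8 / d) ≤ w * (ε / 8) :=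
          mul_le_mul_of_nonneg_left h4 hw0.le
        linarith
      have h6 : 2 * (1 / (d : ℝ)) * ((ssY G EH d Hs Ys UH (Y \ Hs)).card : ℝ) ≤
          (ε / 4 * w) / Real.log d ^ 5 := by
        have h7 : 2 * (1 / (d : ℝ)) * ((ssY G EH d Hs Ys UH (Y \ Hs)).card : ℝ) ≤
            2 * (1 / (d : ℝ)) * w :=
          mul_le_mul_of_nonneg_left hcardS (by positivity)
        refine h7.trans ?_
        have e : 2 * (1 / (d : ℝ)) * w = (2 * w) / d := by ring
        rw [e, div_le_div_iff₀ hd0 (by positivity)]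
        have h7 : 8 * Real.log d ^ 5 ≤ ε * d := by
          have := hp 20
          linarith
        have := mul_le_mul_of_nonneg_left h7 hw0.le
        linarith
      refine (Real.exp_le_exp.2 (?_ : _ ≤ -(12 * Real.log d))).trans (exp_le_inv hd0 le_rfl)
      have h10 : 12 * Real.log d ≤ (ε / 2 * w) / Real.log d ^ 5 := by
        rw [le_div_iff₀ (by positivity)]
        have a1 : Real.log d ^ 3 * (9 / 10 * d) ≤ w :=
          (mul_le_mul_of_nonneg_left hYc (by positivity)).trans hwl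
        have a2 : ε / 2 * (Real.log d ^ 3 * (9 / 10 * d)) ≤ ε / 2 * w :=
          mul_le_mul_of_nonneg_left a1 (by positivity)
        have a3 : 1000000 * Real.log d ^ 20 * Real.log d ^ 3 ≤ ε * d * Real.log d ^ 3 :=
          mul_le_mul_of_nonneg_right hεd (by positivity)
        have a4 : Real.log d * Real.log d ^ 5 ≤ Real.log d ^ 20 * Real.log d ^ 3 := by
          rw [← pow_succ', ← pow_add]
          exact pow_le_pow_right₀ h1 (by norm_num)
        have a5 : 0 ≤ Real.log d * Real.log d ^ 5 := by positivity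
        nlinarith
      have h11 : -(3 / 4 * ε * w) / Real.log d ^ 5 + (ε / 4 * w) / Real.log d ^ 5 =
          -((ε / 2 * w) / Real.log d ^ 5) := by ring
      linarith
    · intro f hf
      rw [not_le] at hf
      exact ⟨fun h => absurd h hYn, fun _ _ => hf.le⟩

include hl hld hdis hcard in
theorem pack_upp (hε : 0 < ε) (hlε : 1000 / ε ≤ Real.log d)
    (hdeg : ∀ v, (nb G v).card ≤ d) (Y : Finset V) : PackI (M := d ^ 2) (1 / (d : ℝ))
    (Sc G EH d Hs Ys UH S (Sum.inr (Sum.inl Y))) (Wg d (Sum.inr (Sum.inl Y) : Ev V J))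
    (Pg ε G EH d Hs Ys UH S YJ (Sum.inr (Sum.inl Y))) := by
  obtain ⟨hd1, hd2, hL, _⟩ := basic hl hld
  have hd0 : (0 : ℝ) < d := by linarith
  have hdn : 0 < d := by exact_mod_cast hd0
  have h1 : (1 : ℝ) ≤ Real.log d := by linarith
  by_cases h : Y ∈ sms G d Hs Ys
  · obtain ⟨hY1, hY2, hY3⟩ := mem_sms h
    have hYc := (hcard Y hY1).1
    have hYp : (0 : ℝ) < Y.card := by linarith
    have hYd : (Y.card : ℝ) ≤ d := by exact_mod_cast hY2.le
    have hm := mean_le (UH := UH) h1 hld hdis hcard h (subset_refl Y)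
    rw [div_self hYp.ne', one_mul] at hm
    refine pack1 (Q := Y)
      (E := fun f => mean Y (Bs G d Hs Ys UH) + Real.log d ^ 8 ≤
        ((Y.filter (fun v => f v ∈ Bs G d Hs Ys UH v)).card : ℝ)) ?_ ?_ ?_ ?_ ?_
    · exact dep_hits Y (Bs G d Hs Ys UH)
        (fun n => mean Y (Bs G d Hs Ys UH) + Real.log d ^ 8 ≤ (n : ℝ))
    · exact card_pos.1 (by exact_mod_cast hYp)
    · simp only [Sc]
      rw [if_pos h]
    · have h2 := up (pow_pos hdn 2) Y (Bs G d Hs Ys UH) (1 / 2) (Real.log d ^ 8) (by norm_num)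
        (by norm_num)
      refine (mul_le_mul_of_nonneg_right h2 (Real.exp_pos _).le).trans ?_
      rw [← Real.exp_add]
      simp only [Wg]
      have h3 : 2 * (1 / (d : ℝ)) * (Y.card : ℝ) ≤ 2 := by
        rw [mul_one_div, div_mul_eq_mul_div, div_le_iff₀ hd0]
        linarith
      refine (Real.exp_le_exp.2 (?_ : _ ≤ -(12 * Real.log d))).trans (exp_le_inv hd0 le_rfl)
      linarith
    · intro f hf
      rw [not_le] at hf
      exact ⟨fun _ => by linarith, fun _ h2 => absurd h h2⟩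
  · by_cases hs : Y ∈ shs d Ys
    · exact pack_gss hl hld hdis hcard hε hlε hdeg hs h
    · refine pack0 ?_ fun f => ⟨fun h1 => absurd h1 h, fun h1 => absurd h1 hs⟩
      simp only [Wg]
      positivity

include hl hld hdis hcard in
theorem pack_out (hdeg : ∀ v, (nb G v).card ≤ d) (w : V) : PackI (M := d ^ 2) (1 / (d : ℝ))
    (Sc G EH d Hs Ys UH S (Sum.inr (Sum.inr (Sum.inr (Sum.inl w)))))
    (Wg d (Sum.inr (Sum.inr (Sum.inr (Sum.inl w))) : Ev V J))
    (Pg ε G EH d Hs Ys UH S YJ (Sum.inr (Sum.inr (Sum.inr (Sum.inl w))))) := by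
  obtain ⟨hd1, hd2, hL, _⟩ := basic hl hld
  have hd0 : (0 : ℝ) < d := by linarith
  have hdn : 0 < d := by exact_mod_cast hd0
  have h1 : (1 : ℝ) ≤ Real.log d := by linarith
  have hwd : ((nb G w).card : ℝ) ≤ d := by exact_mod_cast hdeg w
  rcases (nb G w).eq_empty_or_nonempty with h | h
  · refine pack0 ?_ fun f => ?_
    · simp only [Wg]
      positivity
    · simp only [Pg]
      rw [h, filter_empty, card_empty, Nat.cast_zero]
      positivity
  · have hm : mean (nb G w) (Bs G d Hs Ys UH) ≤ 10 / 9 * Real.log d ^ 8 := by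
      unfold mean
      calc ∑ v ∈ nb G w, ((Bs G d Hs Ys UH v).card : ℝ) / (d ^ 2 : ℕ)
          ≤ ∑ _v ∈ nb G w, 10 / 9 * Real.log d ^ 8 / d :=
            sum_le_sum fun v _ => Bs_le h1 hld hdis hcard v
        _ = (nb G w).card * (10 / 9 * Real.log d ^ 8 / d) := by rw [sum_const, nsmul_eq_mul]
        _ ≤ d * (10 / 9 * Real.log d ^ 8 / d) :=
            mul_le_mul_of_nonneg_right hwd (by positivity)
        _ = _ := by field_simp
    refine pack1 (Q := nb G w)
      (E := fun f => Real.log d ^ 9 ≤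
        1 * (((nb G w).filter (fun v => f v ∈ Bs G d Hs Ys UH v)).card : ℝ)) ?_ h ?_ ?_ ?_
    · exact dep_hits (nb G w) (Bs G d Hs Ys UH) (fun n => Real.log d ^ 9 ≤ 1 * (n : ℝ))
    · simp only [Sc]
      exact subset_refl _
    · have h2 := hits (pow_pos hdn 2) (nb G w) (Bs G d Hs Ys UH) 1 2 (Real.log d ^ 9)
        (by have := Real.exp_one_lt_d9; linarith)
      refine (mul_le_mul_of_nonneg_right h2 (Real.exp_pos _).le).trans ?_
      rw [← Real.exp_add]
      simp only [Wg]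
      have h3 : 2 * (1 / (d : ℝ)) * ((nb G w).card : ℝ) ≤ 2 := by
        rw [mul_one_div, div_mul_eq_mul_div, div_le_iff₀ hd0]
        linarith
      have h4 : 1000 * Real.log d ^ 8 ≤ Real.log d ^ 9 := by
        rw [pow_succ (Real.log d) 8, mul_comm]
        exact mul_le_mul_of_nonneg_left hl (by positivity)
      refine (Real.exp_le_exp.2 (?_ : _ ≤ -(12 * Real.log d))).trans (exp_le_inv hd0 le_rfl)
      linarith
    · intro f hf
      rw [not_le, one_mul] at hf
      exact hf.le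

include hl hld hdis hcard in
theorem pack_tst (hε : 0 < ε) (hε1 : ε ≤ 1 / 10) (hlε : 1000 / ε ≤ Real.log d)
    (hdeg : ∀ v, (nb G v).card ≤ d) (hUH : ∀ Y ∈ Ys, (Y ∩ UH).card ≤ 2)
    (hHs : ∀ Y ∈ Ys, ((Y ∩ Hs).card : ℝ) ≤ ε / 100 * Y.card)
    (hYJ : ∀ j, YJ j ∈ sms G d Hs Ys ∧ S j ⊆ YJ j) (j : J) : PackI (M := d ^ 2) (1 / (d : ℝ))
    (Sc G EH d Hs Ys UH S (Sum.inr (Sum.inr (Sum.inr (Sum.inr j)))))
    (Wg d (Sum.inr (Sum.inr (Sum.inr (Sum.inr j))) : Ev V J))
    (Pg ε G EH d Hs Ys UH S YJ (Sum.inr (Sum.inr (Sum.inr (Sum.inr j))))) := by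
  obtain ⟨hd1, hd2, hL, hL7⟩ := basic hl hld
  have hd0 : (0 : ℝ) < d := by linarith
  have hdn : 0 < d := by exact_mod_cast hd0
  have h1 : (1 : ℝ) ≤ Real.log d := by linarith
  obtain ⟨hY, hS⟩ := hYJ j
  obtain ⟨hY1, hY2, hY3⟩ := mem_sms hY
  have hYc := (hcard _ hY1).1
  have hYp : (0 : ℝ) < (YJ j).card := by linarith
  have hYd : ((YJ j).card : ℝ) ≤ d := by exact_mod_cast hY2.le
  have hSY : ((S j).card : ℝ) ≤ (YJ j).card := by exact_mod_cast card_le_card hS
  have h8 : 0 < Real.log d ^ 8 := by positivity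
  rcases (S j).eq_empty_or_nonempty with h | h
  · refine pack0 ?_ fun f => ?_
    · simp only [Wg]
      positivity
    · simp only [Pg]
      rw [h, filter_empty, card_empty]
      simp only [Nat.cast_zero, zero_div, zero_mul, sub_zero, abs_zero]
      positivity
  · have hm := mean_le (UH := UH) h1 hld hdis hcard hY hS
    have hm' := mean_ge (UH := UH) h1 hld hdis hcard hε hlε hdeg hUH hHs hY hS
    have hmL : mean (S j) (Bs G d Hs Ys UH) ≤ Real.log d ^ 8 := by
      refine hm.trans ?_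
      have : ((S j).card : ℝ) / (YJ j).card ≤ 1 := (div_le_one hYp).2 hSY
      nlinarith
    refine pack1 (Q := S j)
      (E := fun f => (mean (S j) (Bs G d Hs Ys UH) + ε / 2 * Real.log d ^ 8 ≤
        (((S j).filter (fun v => f v ∈ Bs G d Hs Ys UH v)).card : ℝ)) ∨
        ((((S j).filter (fun v => f v ∈ Bs G d Hs Ys UH v)).card : ℝ) ≤
          mean (S j) (Bs G d Hs Ys UH) - ε / 2 * Real.log d ^ 8)) ?_ h ?_ ?_ ?_
    · exact dep_hits (S j) (Bs G d Hs Ys UH) (fun n =>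
        (mean (S j) (Bs G d Hs Ys UH) + ε / 2 * Real.log d ^ 8 ≤ (n : ℝ)) ∨
        ((n : ℝ) ≤ mean (S j) (Bs G d Hs Ys UH) - ε / 2 * Real.log d ^ 8))
    · simp only [Sc]
      exact subset_refl _
    · have h2 := up (pow_pos hdn 2) (S j) (Bs G d Hs Ys UH) (ε / 8) (ε / 2 * Real.log d ^ 8)
        (by positivity) (by linarith)
      have h3 := lo (pow_pos hdn 2) (S j) (Bs G d Hs Ys UH) (ε / 8) (ε / 2 * Real.log d ^ 8)
        (by positivity) (by linarith)
      have h4 := (pr_or _ _).trans (add_le_add h2 h3)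
      refine (mul_le_mul_of_nonneg_right h4 (Real.exp_pos _).le).trans ?_
      rw [← two_mul, mul_assoc, ← Real.exp_add]
      simp only [Wg]
      have h5 : 2 * (1 / (d : ℝ)) * ((S j).card : ℝ) ≤ 2 := by
        rw [mul_one_div, div_mul_eq_mul_div, div_le_iff₀ hd0]
        linarith
      have h6 : (2 : ℝ) ≤ Real.exp 1 := by
        have := Real.add_one_le_exp (1 : ℝ)
        linarith
      refine (mul_le_mul_of_nonneg_right h6 (Real.exp_pos _).le).trans ?_
      rw [← Real.exp_add]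
      refine (Real.exp_le_exp.2 (?_ : _ ≤ -(12 * Real.log d))).trans (exp_le_inv hd0 le_rfl)
      -- `1 + (ε/8)^2 mean - (ε/8)(ε/2) L + 2 ≤ - 12 l`
      have h7 : (ε / 8) ^ 2 * mean (S j) (Bs G d Hs Ys UH) ≤ (ε / 8) ^ 2 * Real.log d ^ 8 :=
        mul_le_mul_of_nonneg_left hmL (by positivity)
      have h9 : 1000 ≤ Real.log d * ε := by
        rwa [div_le_iff₀ hε] at hlε
      have h10 : 1000 ^ 2 * Real.log d ^ 6 ≤ ε ^ 2 * Real.log d ^ 8 := by
        have h11 : (1000 : ℝ) ^ 2 ≤ (Real.log d * ε) ^ 2 := pow_le_pow_left₀ (by norm_num) h9 2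
        calc 1000 ^ 2 * Real.log d ^ 6 ≤ (Real.log d * ε) ^ 2 * Real.log d ^ 6 :=
              mul_le_mul_of_nonneg_right h11 (by positivity)
          _ = _ := by ring
      have h12 : Real.log d ≤ Real.log d ^ 6 := by
        have : Real.log d ^ 1 ≤ Real.log d ^ 6 := pow_le_pow_right₀ h1 (by norm_num)
        rwa [pow_one] at this
      have h13 : (ε / 8) ^ 2 * Real.log d ^ 8 - ε / 8 * (ε / 2 * Real.log d ^ 8) =
          -(3 / 64) * (ε ^ 2 * Real.log d ^ 8) := by ring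
      linarith
    · intro f hf
      rw [not_or, not_le, not_le] at hf
      simp only [Pg]
      rw [abs_le]
      constructor <;> linarith [hf.1, hf.2]

include hl hld hdis hcard in
theorem pack_ss (hε : 0 < ε) (hlε : 1000 / ε ≤ Real.log d)
    (hdeg : ∀ v, (nb G v).card ≤ d) (hwt : ∀ Y ∈ Ys, wt G d Y ≤ ε / 100 * d * Y.card)
    (hε1 : ε ≤ 1 / 10) (Y : Finset V) : PackI (M := d ^ 2) (1 / (d : ℝ))
    (Sc G EH d Hs Ys UH S (Sum.inr (Sum.inr (Sum.inl Y))))
    (Wg d (Sum.inr (Sum.inr (Sum.inl Y)) : Ev V J))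
    (Pg ε G EH d Hs Ys UH S YJ (Sum.inr (Sum.inr (Sum.inl Y)))) := by
  obtain ⟨hd1, hd2, hL, hL7⟩ := basic hl hld
  have hd0 : (0 : ℝ) < d := by linarith
  have hdn : 0 < d := by exact_mod_cast hd0
  have h1 : (1 : ℝ) ≤ Real.log d := by linarith
  have h8 : 0 < Real.log d ^ 8 := by positivity
  by_cases hYs : Y ∈ shs d Ys
  swap
  · refine pack0 ?_ fun f h1 => absurd h1 hYs
    simp only [Wg]
    positivity
  rcases (ssY G EH d Hs Ys UH Y).eq_empty_or_nonempty with h | h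
  · refine pack0 ?_ fun f => ?_
    · simp only [Wg]
      positivity
    · simp only [Pg]
      rw [h, sum_empty]
      intro _
      positivity
  · have hY' := hYs
    unfold shs at hY'
    rw [mem_filter] at hY'
    obtain ⟨hY1, hY2⟩ := hY'
    have hYc := (hcard _ hY1).1
    have hYp : (0 : ℝ) < Y.card := by linarith
    have hYd : (Y.card : ℝ) ≤ d := by exact_mod_cast hY2.le
    -- total weight
    have haw0 : ∀ s, 0 ≤ aw G EH Ys Y s := fun s => by
      unfold aw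
      positivity
    have htot : ∑ s : V, aw G EH Ys Y s ≤ ε / 100 * d * Y.card := by
      have h2 := dbl (Gss G EH Ys) Y univ
      have h3 : ∑ s : V, aw G EH Ys Y s = ((∑ v ∈ Y, (nb (Gss G EH Ys) v).card : ℕ) : ℝ) := by
        unfold aw
        rw [← Nat.cast_sum, ← h2]
        simp only [inter_univ]
      rw [h3, Nat.cast_sum]
      calc ∑ v ∈ Y, ((nb (Gss G EH Ys) v).card : ℝ) ≤ ∑ v ∈ Y, (od G Ys v : ℝ) :=
            sum_le_sum fun v _ => by exact_mod_cast gss_card (G := G) (Ys := Ys) EH v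
        _ ≤ wt G d Y := sum_od hdeg hdis hY1
        _ ≤ _ := hwt Y hY1
    have htotS : ∑ s ∈ ssY G EH d Hs Ys UH Y, aw G EH Ys Y s ≤ ε / 100 * d * Y.card :=
      (sum_le_sum_of_subset_of_nonneg (subset_univ _) fun s _ _ => haw0 s).trans htot
    have hcardS : ((ssY G EH d Hs Ys UH Y).card : ℝ) ≤ ε / 100 * d * Y.card := by
      refine le_trans ?_ htotS
      rw [← nsmul_one, ← sum_const]
      refine sum_le_sum fun s hs => ?_
      unfold ssY at hs
      rw [mem_filter] at hs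
      unfold aw
      exact_mod_cast card_pos.2 hs.2.2
    refine pack1 (Q := ssY G EH d Hs Ys UH Y)
      (E := fun f => ε * Real.log d ^ 8 * Y.card ≤ ∑ s ∈ ssY G EH d Hs Ys UH Y,
        (if f s ∈ Bs G d Hs Ys UH s then aw G EH Ys Y s else 0)) ?_ h ?_ ?_ ?_
    · intro f f' hf
      have : ∑ s ∈ ssY G EH d Hs Ys UH Y, (if f s ∈ Bs G d Hs Ys UH s then aw G EH Ys Y s else 0) =
          ∑ s ∈ ssY G EH d Hs Ys UH Y, (if f' s ∈ Bs G d Hs Ys UH s then aw G EH Ys Y s else 0) :=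
        sum_congr rfl fun s hs => by rw [hf s hs]
      beta_reduce
      rw [this]
    · simp only [Sc]
      rw [if_pos hYs]
    · have h2 := wt_hits (pow_pos hdn 2) (ssY G EH d Hs Ys UH Y) (Bs G d Hs Ys UH) (aw G EH Ys Y)
        (Real.log d ^ 5) (ε * Real.log d ^ 8 * Y.card) (by positivity) (fun s _ => haw0 s)
        (fun s hs => by
          unfold ssY at hs
          rw [mem_filter] at hs
          refine le_trans ?_ hs.2.1.2.2
          unfold aw
          exact_mod_cast (card_le_card inter_subset_left).trans (gss_card (G := G) (Ys := Ys) EH s))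
      refine (mul_le_mul_of_nonneg_right h2 (Real.exp_pos _).le).trans ?_
      rw [← Real.exp_add]
      simp only [Wg]
      have h3 : ∑ s ∈ ssY G EH d Hs Ys UH Y, aw G EH Ys Y s *
          (((Bs G d Hs Ys UH s).card : ℝ) / (d ^ 2 : ℕ)) ≤
          (10 / 9 * Real.log d ^ 8 / d) * (ε / 100 * d * Y.card) := by
        calc _ ≤ ∑ s ∈ ssY G EH d Hs Ys UH Y, aw G EH Ys Y s * (10 / 9 * Real.log d ^ 8 / d) :=
              sum_le_sum fun s _ => mul_le_mul_of_nonneg_left (Bs_le h1 hld hdis hcard s)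
                (haw0 s)
          _ = (∑ s ∈ ssY G EH d Hs Ys UH Y, aw G EH Ys Y s) * (10 / 9 * Real.log d ^ 8 / d) := by
              rw [sum_mul]
          _ ≤ (ε / 100 * d * Y.card) * (10 / 9 * Real.log d ^ 8 / d) :=
              mul_le_mul_of_nonneg_right htotS (by positivity)
          _ = _ := by ring
      have h4 : (10 / 9 * Real.log d ^ 8 / d) * (ε / 100 * d * Y.card) =
          ε / 90 * (Real.log d ^ 8 * Y.card) := by
        field_simp
        ring
      rw [h4] at h3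
      have h5 : (2 * (∑ s ∈ ssY G EH d Hs Ys UH Y, aw G EH Ys Y s *
          (((Bs G d Hs Ys UH s).card : ℝ) / (d ^ 2 : ℕ))) - ε * Real.log d ^ 8 * Y.card) /
          Real.log d ^ 5 ≤ -(ε / 2 * Real.log d ^ 3 * Y.card) := by
        rw [div_le_iff₀ (by positivity)]
        have e : -(ε / 2 * Real.log d ^ 3 * Y.card) * Real.log d ^ 5 =
            -(ε / 2 * (Real.log d ^ 8 * Y.card)) := by ring
        rw [e]
        have h6 : 0 ≤ ε * (Real.log d ^ 8 * Y.card) := by positivity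
        linarith
      have h6 : 2 * (1 / (d : ℝ)) * ((ssY G EH d Hs Ys UH Y).card : ℝ) ≤ Y.card := by
        have h7 : 2 * (1 / (d : ℝ)) * ((ssY G EH d Hs Ys UH Y).card : ℝ) ≤
            2 * (1 / (d : ℝ)) * (ε / 100 * d * Y.card) :=
          mul_le_mul_of_nonneg_left hcardS (by positivity)
        refine h7.trans ?_
        have e : 2 * (1 / (d : ℝ)) * (ε / 100 * d * Y.card) = ε / 50 * Y.card := by
          field_simp
          ring
        rw [e]
        nlinarith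
      refine (Real.exp_le_exp.2 (?_ : _ ≤ -(12 * Real.log d))).trans (exp_le_inv hd0 le_rfl)
      have h9 : 1000 ≤ Real.log d * ε := by
        rwa [div_le_iff₀ hε] at hlε
      have h10 : 1000 * Real.log d ^ 2 ≤ ε * Real.log d ^ 3 := by
        calc 1000 * Real.log d ^ 2 ≤ (Real.log d * ε) * Real.log d ^ 2 :=
              mul_le_mul_of_nonneg_right h9 (by positivity)
          _ = _ := by ring
      have h11 : 1 ≤ Real.log d ^ 2 := one_le_pow₀ h1
      have h12 : 1000 * (Y.card : ℝ) ≤ ε * Real.log d ^ 3 * Y.card := by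
        refine mul_le_mul_of_nonneg_right ?_ hYp.le
        linarith
      have h13 : ε / 2 * Real.log d ^ 3 * Y.card = 1 / 2 * (ε * Real.log d ^ 3 * Y.card) := by
        ring
      rw [h13] at h5
      linarith
    · intro f hf _
      rw [not_le] at hf
      exact hf.le

end packs

section count

variable {V : Type u} [Fintype V] {J : Type u} [Fintype J] {G EH : SimpleGraph V}
  {d : ℕ} {Hs : Finset V} {Ys : Finset (Finset V)} {UH : Finset V} {S : J → Finset V}

theorem cnt_ind (hl : 0 ≤ Real.log d) (y : V) :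
    ((univ.filter (fun p : V × V => y ∈ Sc G EH d Hs Ys UH S (Sum.inl p))).card : ℝ) ≤
      2 * Real.log d ^ 5 := by
  by_cases he : el G d Hs Ys UH y
  · have h1 : univ.filter (fun p : V × V => y ∈ Sc G EH d Hs Ys UH S (Sum.inl p)) ⊆
        (nb (Gss G EH Ys) y).image (fun w => (y, w)) ∪
          (nb (Gss G EH Ys) y).image (fun w => (w, y)) := by
      intro p hp
      rw [mem_filter] at hp
      have hp2 := hp.2
      simp only [Sc] at hp2
      split_ifs at hp2 with h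
      · rw [mem_insert, mem_singleton] at hp2
        rw [mem_union, mem_image, mem_image]
        rcases hp2 with h2 | h2
        · left
          exact ⟨p.2, mem_nb.2 (h2 ▸ h.2.2), Prod.ext h2 rfl⟩
        · right
          exact ⟨p.1, mem_nb.2 (h2 ▸ h.2.2.symm), Prod.ext rfl h2⟩
      · exact absurd hp2 (notMem_empty _)
    have h2 : (univ.filter (fun p : V × V => y ∈ Sc G EH d Hs Ys UH S (Sum.inl p))).card ≤
        od G Ys y + od G Ys y :=
      (card_le_card h1).trans ((card_union_le _ _).trans (add_le_add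
        (card_image_le.trans (gss_card EH y)) (card_image_le.trans (gss_card EH y))))
    have h3 : ((univ.filter (fun p : V × V => y ∈ Sc G EH d Hs Ys UH S (Sum.inl p))).card : ℝ) ≤
        od G Ys y + od G Ys y := by exact_mod_cast h2
    linarith [he.2.2]
  · have h1 : univ.filter (fun p : V × V => y ∈ Sc G EH d Hs Ys UH S (Sum.inl p)) = ∅ := by
      rw [filter_eq_empty_iff]
      intro p _ hp
      simp only [Sc] at hp
      split_ifs at hp with h
      · rw [mem_insert, mem_singleton] at hp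
        rcases hp with h2 | h2
        · exact he (h2 ▸ h.1)
        · exact he (h2 ▸ h.2.1)
      · exact absurd hp (notMem_empty _)
    rw [h1]
    simp only [card_empty, Nat.cast_zero]
    positivity

theorem cnt_upp (hdeg : ∀ v, (nb G v).card ≤ d)
    (hdis : ∀ Y ∈ Ys, ∀ Y' ∈ Ys, Y ≠ Y' → Disjoint Y Y') (y : V) :
    (univ.filter (fun Y : Finset V => y ∈ Sc G EH d Hs Ys UH S (Sum.inr (Sum.inl Y)))).card ≤
      1 + d := by
  have h0 : univ.filter (fun Y : Finset V => y ∈ Sc G EH d Hs Ys UH S (Sum.inr (Sum.inl Y))) ⊆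
      univ.filter (fun Y : Finset V => Y ∈ Ys ∧ y ∈ Y) ∪
      univ.filter (fun Y : Finset V => Y ∈ Ys ∧ (nb (Gss G EH Ys) y ∩ Y).Nonempty) := by
    intro Y hY
    rw [mem_filter] at hY
    have h1 := hY.2
    simp only [Sc] at h1
    rw [mem_union, mem_filter, mem_filter]
    split_ifs at h1 with h3 h4
    · exact Or.inl ⟨mem_univ _, (mem_sms h3).1, h1⟩
    · unfold ssY at h1
      rw [mem_filter] at h1
      unfold shs at h4
      rw [mem_filter] at h4
      refine Or.inr ⟨mem_univ _, h4.1, ?_⟩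
      obtain ⟨z, hz⟩ := h1.2.2
      rw [mem_inter, mem_sdiff] at hz
      exact ⟨z, mem_inter.2 ⟨hz.1, hz.2.1⟩⟩
    · exact absurd h1 (notMem_empty _)
  have h1 : (univ.filter (fun Y : Finset V => Y ∈ Ys ∧ y ∈ Y)).card ≤ 1 := by
    rw [card_le_one]
    intro Y hY Y' hY'
    rw [mem_filter] at hY hY'
    by_contra hne
    exact disjoint_left.1 (hdis _ hY.2.1 _ hY'.2.1 hne) hY.2.2 hY'.2.2
  have h2 : (univ.filter (fun Y : Finset V => Y ∈ Ys ∧
      (nb (Gss G EH Ys) y ∩ Y).Nonempty)).card ≤ d := by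
    set A := univ.filter (fun Y : Finset V => Y ∈ Ys ∧
      (nb (Gss G EH Ys) y ∩ Y).Nonempty) with hA
    have h0 : ∀ Y ∈ A, Y ∈ Ys ∧ (nb (Gss G EH Ys) y ∩ Y).Nonempty := by
      intro Y hY
      rw [hA, mem_filter] at hY
      exact hY.2
    calc A.card = ∑ _Y ∈ A, 1 := by rw [card_eq_sum_ones]
      _ ≤ ∑ Y ∈ A, (nb (Gss G EH Ys) y ∩ Y).card := sum_le_sum fun Y hY => card_pos.2 (h0 Y hY).2
      _ = (A.biUnion (fun Y => nb (Gss G EH Ys) y ∩ Y)).card := by
          rw [card_biUnion]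
          intro Y hY Y' hY' hne
          exact (hdis _ (h0 Y hY).1 _ (h0 Y' hY').1 hne).mono inter_subset_right
            inter_subset_right
      _ ≤ (nb (Gss G EH Ys) y).card := card_le_card (by
          intro w hw
          rw [mem_biUnion] at hw
          obtain ⟨Y, _, hw⟩ := hw
          exact (mem_inter.1 hw).1)
      _ ≤ (nb G y).card := card_le_card ((gss_sub EH y).trans (filter_subset _ _))
      _ ≤ d := hdeg y
  exact (card_le_card h0).trans ((card_union_le _ _).trans (add_le_add h1 h2))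

theorem cnt_ss (hdeg : ∀ v, (nb G v).card ≤ d)
    (hdis : ∀ Y ∈ Ys, ∀ Y' ∈ Ys, Y ≠ Y' → Disjoint Y Y') (y : V) :
    (univ.filter (fun Y : Finset V =>
      y ∈ Sc G EH d Hs Ys UH S (Sum.inr (Sum.inr (Sum.inl Y))))).card ≤ d := by
  set A := univ.filter (fun Y : Finset V =>
      y ∈ Sc G EH d Hs Ys UH S (Sum.inr (Sum.inr (Sum.inl Y)))) with hA
  have h0 : ∀ Y ∈ A, Y ∈ Ys ∧ (nb (Gss G EH Ys) y ∩ Y).Nonempty := by
    intro Y hY
    rw [hA, mem_filter] at hY
    have h1 := hY.2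
    simp only [Sc] at h1
    split_ifs at h1 with h3
    · unfold ssY at h1
      rw [mem_filter] at h1
      unfold shs at h3
      rw [mem_filter] at h3
      exact ⟨h3.1, h1.2.2⟩
    · exact absurd h1 (notMem_empty _)
  calc A.card = ∑ _Y ∈ A, 1 := by rw [card_eq_sum_ones]
    _ ≤ ∑ Y ∈ A, (nb (Gss G EH Ys) y ∩ Y).card := sum_le_sum fun Y hY => card_pos.2 (h0 Y hY).2
    _ = (A.biUnion (fun Y => nb (Gss G EH Ys) y ∩ Y)).card := by
        rw [card_biUnion]
        intro Y hY Y' hY' hne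
        exact (hdis _ (h0 Y hY).1 _ (h0 Y' hY').1 hne).mono inter_subset_right inter_subset_right
    _ ≤ (nb (Gss G EH Ys) y).card := card_le_card (by
        intro w hw
        rw [mem_biUnion] at hw
        obtain ⟨Y, _, hw⟩ := hw
        exact (mem_inter.1 hw).1)
    _ ≤ (nb G y).card := card_le_card ((gss_sub EH y).trans (filter_subset _ _))
    _ ≤ d := hdeg y

theorem cnt_out (hdeg : ∀ v, (nb G v).card ≤ d) (y : V) :
    (univ.filter (fun w : V =>
      y ∈ Sc G EH d Hs Ys UH S (Sum.inr (Sum.inr (Sum.inr (Sum.inl w)))))).card ≤ d := by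
  refine (card_le_card ?_).trans (hdeg y)
  intro w hw
  rw [mem_filter] at hw
  have h := hw.2
  simp only [Sc] at h
  exact mem_nb.2 (mem_nb.1 h).symm

end count

/-- sum over the events -/
theorem sum_ev {V J : Type u} [Fintype V] [Fintype J] (p : Ev V J → Prop)
    (i : DecidablePred p) (W : Ev V J → ℝ) :
    ∑ r ∈ @Finset.filter _ p i univ, W r =
      ∑ a ∈ univ.filter (fun a : V × V => p (Sum.inl a)), W (Sum.inl a) +
      (∑ a ∈ univ.filter (fun a : Finset V => p (Sum.inr (Sum.inl a))), W (Sum.inr (Sum.inl a)) +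
      (∑ a ∈ univ.filter (fun a : Finset V => p (Sum.inr (Sum.inr (Sum.inl a)))),
        W (Sum.inr (Sum.inr (Sum.inl a))) +
      (∑ a ∈ univ.filter (fun a : V => p (Sum.inr (Sum.inr (Sum.inr (Sum.inl a))))),
        W (Sum.inr (Sum.inr (Sum.inr (Sum.inl a)))) +
      ∑ a ∈ univ.filter (fun a : J => p (Sum.inr (Sum.inr (Sum.inr (Sum.inr a))))),
        W (Sum.inr (Sum.inr (Sum.inr (Sum.inr a))))))) := by
  simp only [sum_filter, Fintype.sum_sum_type]

/-- GUARD, version 2, with the output `gss` -/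
theorem guard2 (ε : ℝ) (hε : 0 < ε) (hε1 : ε ≤ 1 / 10) : ∃ (d0 : ℕ),
    ∀ {V : Type u} [Fintype V] (G EH : SimpleGraph V) (d : ℕ) (Ys : Finset (Finset V))
      (UH Hs : Finset V) (J : Type u) [Fintype J] (S YJ : J → Finset V), d0 ≤ d →
      (∀ v, (nb G v).card ≤ d) → (∀ Y ∈ Ys, ∀ Y' ∈ Ys, Y ≠ Y' → Disjoint Y Y') →
      (∀ Y ∈ Ys, (9 / 10 : ℝ) * d ≤ (Y.card : ℝ) ∧ Y.card ≤ 2 * d) →
      (∀ Y ∈ Ys, (Y ∩ UH).card ≤ 2) → (∀ Y ∈ Ys, wt G d Y ≤ ε / 100 * d * Y.card) →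
      (∀ Y ∈ Ys, ((Y ∩ Hs).card : ℝ) ≤ ε / 100 * Y.card) →
      (∀ j, YJ j ∈ sms G d Hs Ys ∧ S j ⊆ YJ j) →
      (∀ v, (univ.filter (fun j => v ∈ S j)).card ≤ d ^ 10) →
      ∃ Gd : Finset V, Grd ε G EH d Ys UH Hs S YJ Gd ∧ ∀ Y ∈ shs d Ys, Y ∉ sms G d Hs Ys →
        ((∑ v ∈ Y \ Hs, (nb (Gss G EH Ys) v ∩ Gd).card : ℕ) : ℝ) ≤ ε * wl G d Hs Y := by
  obtain ⟨d0, hd0⟩ := large (max 1000 (1000 / ε))
  refine ⟨d0, ?_⟩
  intro V _ G EH d Ys UH Hs J _ S YJ hd hdeg hdis hcard hUH hwt hHs hYJ hcov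
  obtain ⟨hlm, hld⟩ := hd0 d hd
  have hl : 1000 ≤ Real.log d := (le_max_left _ _).trans hlm
  have hlε : 1000 / ε ≤ Real.log d := (le_max_right _ _).trans hlm
  obtain ⟨hd1, hd2, hL, hL7⟩ := basic hl hld
  have hd0' : (0 : ℝ) < d := by linarith
  have hdn : 0 < d := by exact_mod_cast hd0'
  have h1 : (1 : ℝ) ≤ Real.log d := by linarith
  obtain ⟨f, hf⟩ := stmt_LLLI.{u} V (d ^ 2) (Ev V J) (1 / (d : ℝ)) (Sc G EH d Hs Ys UH S)
    (Wg d) (Pg ε G EH d Hs Ys UH S YJ) (pow_pos hdn 2) (by positivity)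
    (by
      rw [div_le_div_iff₀ hd0' (by norm_num)]
      linarith)
    (by
      rintro (p | Y | Y | w | j)
      · exact pack_ind hl hld hdis hcard p
      · exact pack_upp hl hld hdis hcard hε hlε hdeg Y
      · exact pack_ss hl hld hdis hcard hε hlε hdeg hwt hε1 Y
      · exact pack_out hl hld hdis hcard hdeg w
      · exact pack_tst hl hld hdis hcard hε hε1 hlε hdeg hUH hHs hYJ j)
    (by
      intro y
      rw [sum_ev]
      simp only [Wg, sum_const, nsmul_eq_mul]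
      have c1 := cnt_ind (G := G) (EH := EH) (Hs := Hs) (Ys := Ys) (UH := UH) (S := S) (d := d)
        (by linarith) y
      have c2 : ((univ.filter (fun Y : Finset V =>
          y ∈ Sc G EH d Hs Ys UH S (Sum.inr (Sum.inl Y)))).card : ℝ) ≤ 1 + d := by
        exact_mod_cast cnt_upp hdeg hdis y
      have c3 : ((univ.filter (fun Y : Finset V =>
          y ∈ Sc G EH d Hs Ys UH S (Sum.inr (Sum.inr (Sum.inl Y))))).card : ℝ) ≤ d := by
        exact_mod_cast cnt_ss hdeg hdis y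
      have c4 : ((univ.filter (fun w : V =>
          y ∈ Sc G EH d Hs Ys UH S (Sum.inr (Sum.inr (Sum.inr (Sum.inl w)))))).card : ℝ) ≤ d := by
        exact_mod_cast cnt_out hdeg y
      have c5 : ((univ.filter (fun j : J =>
          y ∈ Sc G EH d Hs Ys UH S (Sum.inr (Sum.inr (Sum.inr (Sum.inr j)))))).card : ℝ) ≤
          (d : ℝ) ^ 10 := by
        have := hcov y
        simp only [Sc]
        exact_mod_cast this
      have w0 : 0 ≤ 10 * Real.log d ^ 16 / (d : ℝ) ^ 2 := by positivity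
      have w1 : 0 ≤ ((d : ℝ) ^ 12)⁻¹ := by positivity
      refine (add_le_add (mul_le_mul_of_nonneg_right c1 w0) (add_le_add
        (mul_le_mul_of_nonneg_right c2 w1) (add_le_add (mul_le_mul_of_nonneg_right c3 w1)
          (add_le_add (mul_le_mul_of_nonneg_right c4 w1)
            (mul_le_mul_of_nonneg_right c5 w1))))).trans ?_
      have t1 : 2 * Real.log d ^ 5 * (10 * Real.log d ^ 16 / (d : ℝ) ^ 2) ≤ 1 / (2 * d) := by
        rw [show 2 * Real.log d ^ 5 * (10 * Real.log d ^ 16 / (d : ℝ) ^ 2) =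
          (20 * Real.log d ^ 21) / (d : ℝ) ^ 2 by ring]
        rw [div_le_div_iff₀ (by positivity) (by positivity)]
        nlinarith
      have t2 : (1 + d + (d + (d + (d : ℝ) ^ 10))) * ((d : ℝ) ^ 12)⁻¹ ≤ 1 / (2 * d) := by
        have h10 : (d : ℝ) ≤ (d : ℝ) ^ 10 := by
          have : (d : ℝ) ^ 1 ≤ (d : ℝ) ^ 10 := pow_le_pow_right₀ (by linarith) (by norm_num)
          rwa [pow_one] at this
        rw [← div_eq_mul_inv, div_le_div_iff₀ (by positivity) (by positivity)]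
        have h11 : (1 + d + (d + (d + (d : ℝ) ^ 10))) * (2 * d) ≤ (5 * (d : ℝ) ^ 10) * (2 * d) :=
          mul_le_mul_of_nonneg_right (by linarith) (by positivity)
        refine h11.trans ?_
        have h12 : (5 * (d : ℝ) ^ 10) * (2 * d) = 10 * (d : ℝ) ^ 11 := by ring
        have h13 : 1 * (d : ℝ) ^ 12 = d * (d : ℝ) ^ 11 := by ring
        rw [h12, h13]
        exact mul_le_mul_of_nonneg_right (by linarith) (by positivity)
      have t3 : (1 : ℝ) / (2 * d) + 1 / (2 * d) = 1 / d := by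
        field_simp
        norm_num
      linarith)
  obtain ⟨Gd, hGd⟩ : ∃ Gd : Finset V, ∀ v, v ∈ Gd ↔ f v ∈ Bs G d Hs Ys UH v :=
    ⟨univ.filter (fun v => f v ∈ Bs G d Hs Ys UH v), fun v => by
      rw [mem_filter]
      exact ⟨fun h => h.2, fun h => ⟨mem_univ v, h⟩⟩⟩
  have hel : ∀ v ∈ Gd, el G d Hs Ys UH v := by
    intro v hv
    rw [hGd] at hv
    by_contra hc
    have : Bs G d Hs Ys UH v = ∅ := if_neg hc
    rw [this] at hv
    exact absurd hv (notMem_empty _)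
  have hint : ∀ A : Finset V, A ∩ Gd = A.filter (fun v => f v ∈ Bs G d Hs Ys UH v) := by
    intro A
    ext v
    rw [mem_inter, hGd, mem_filter]
  have hsum : ∀ A : Finset V, ((∑ v ∈ A, (nb (Gss G EH Ys) v ∩ Gd).card : ℕ) : ℝ) =
      ∑ s ∈ ssY G EH d Hs Ys UH A, (if f s ∈ Bs G d Hs Ys UH s then aw G EH Ys A s else 0) := by
    intro A
    rw [dbl (Gss G EH Ys) A Gd, Nat.cast_sum]
    -- sum over the guards
    have h3 : ∑ s ∈ Gd, ((nb (Gss G EH Ys) s ∩ A).card : ℝ) =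
        ∑ s ∈ Gd.filter (fun s => (nb (Gss G EH Ys) s ∩ A).Nonempty), aw G EH Ys A s := by
      rw [sum_filter]
      refine sum_congr rfl fun s _ => ?_
      unfold aw
      split_ifs with h4
      · rfl
      · rw [not_nonempty_iff_eq_empty.1 h4]
        simp
    have h6 : ∑ s ∈ ssY G EH d Hs Ys UH A, (if f s ∈ Bs G d Hs Ys UH s then aw G EH Ys A s else 0) =
        ∑ s ∈ (ssY G EH d Hs Ys UH A).filter (fun s => f s ∈ Bs G d Hs Ys UH s), aw G EH Ys A s :=
      (sum_filter _ _).symm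
    rw [h3, h6]
    refine sum_congr ?_ fun _ _ => rfl
    ext s
    unfold ssY
    rw [mem_filter, mem_filter, mem_filter, hGd]
    constructor
    · rintro ⟨h4, h5⟩
      exact ⟨⟨mem_univ s, hel s ((hGd s).2 h4), h5⟩, h4⟩
    · rintro ⟨⟨_, h4, h5⟩, h6⟩
      exact ⟨h6, h5⟩
  refine ⟨Gd, ⟨?_, ?_, ?_, ?_, ?_, ?_⟩, ?_⟩
  · intro v hv
    exact ⟨(hel v hv).1.1, (hel v hv).1.2, (hel v hv).2.1, (hel v hv).2.2⟩
  · intro Y hY
    rw [hint]
    exact (hf (Sum.inr (Sum.inl Y))).1 hY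
  · intro v hv w hw hvw
    exact hf (Sum.inl (v, w)) (hel v hv) (hel w hw) hvw ⟨(hGd v).1 hv, (hGd w).1 hw⟩
  · intro Y hY
    have h2 := hf (Sum.inr (Sum.inr (Sum.inl Y))) hY
    refine le_trans (le_of_eq ?_) h2
    exact hsum Y
  · intro w _
    rw [hint]
    exact hf (Sum.inr (Sum.inr (Sum.inr (Sum.inl w))))
  · intro j
    rw [hint]
    exact hf (Sum.inr (Sum.inr (Sum.inr (Sum.inr j))))
  · intro Y hY hYn
    rw [hsum]
    exact (hf (Sum.inr (Sum.inl Y))).2 hY hYn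

end Pool.Agent.Work.MP_db9399_sx.helper12.GA
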