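import Pool.Agent.Work.MP_db9399_sx.Pre
import Pool.Agent.Work.MP_db9399_sx_helper12.Guard2

/-!
# MP_db9399, final assembly of phase 2: the block GDX (guards with test sets)
-/

set_option autoImplicit false

namespace Pool.Agent.Work.MP_db9399_sx.helper12

open Finset Classical
open Pool.Agent.Work.MP_db9399_all (nb)
open Pool.Agent.Work.MP_db9399_sl (InS Same Gss)
open Pool.Agent.Work.MP_db9399_sw (shs sms od wt wl Grd)
open Pool.Agent.Work.MP_db9399_sx

universe u

namespace GX

variable {V : Type u} [Fintype V] {k : ℕ}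

/-- the test sets: `Y`, `Y \ N(w)`, and `ubl Y (c0 w)` -/
noncomputable def St (G : SimpleGraph V) (UH : Finset V) (c0 : V → Fin k) (Y : Finset V) :
    Option (V ⊕ V) → Finset V
  | none => Y
  | some (Sum.inl w) => Y \ nb G w
  | some (Sum.inr w) => ubl G UH c0 Y (c0 w)

/-- the condition for a test set -/
def Ok (G : SimpleGraph V) (Y : Finset V) : Option (V ⊕ V) → Prop
  | none => True
  | some (Sum.inl w) => (nb G w ∩ Y).Nonempty
  | some (Sum.inr w) => (nb G w ∩ Y).Nonempty

theorem St_sub (G : SimpleGraph V) (UH : Finset V) (c0 : V → Fin k) (Y : Finset V)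
    (o : Option (V ⊕ V)) : St G UH c0 Y o ⊆ Y := by
  rcases o with _ | w | w
  · exact subset_refl _
  · exact sdiff_subset
  · unfold St ubl
    exact filter_subset _ _

/-- the vertices with a neighbour in `Y` -/
theorem near_card {G : SimpleGraph V} {d : ℕ} (hdeg : ∀ v, (nb G v).card ≤ d) (Y : Finset V) :
    (univ.filter (fun w => (nb G w ∩ Y).Nonempty)).card ≤ Y.card * d := by
  have h : univ.filter (fun w => (nb G w ∩ Y).Nonempty) ⊆ Y.biUnion (fun y => nb G y) := by
    intro w hw
    obtain ⟨y, hy⟩ := (mem_filter.1 hw).2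
    rw [mem_inter] at hy
    rw [mem_biUnion]
    refine ⟨y, hy.2, ?_⟩
    have : G.Adj w y := by simpa [nb] using hy.1
    simpa [nb] using this.symm
  refine (card_le_card h).trans ?_
  exact card_biUnion_le_card_mul _ _ _ fun y _ => hdeg y

theorem ok_card {G : SimpleGraph V} {d : ℕ} (hdeg : ∀ v, (nb G v).card ≤ d) (Y : Finset V)
    (hY : Y.card ≤ d) : (univ.filter (fun o => Ok G Y o)).card ≤ 1 + (d * d + d * d) := by
  have h : univ.filter (fun o => Ok G Y o) ⊆ {none} ∪
      ((univ.filter (fun w => (nb G w ∩ Y).Nonempty)).image (fun w => some (Sum.inl w)) ∪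
      (univ.filter (fun w => (nb G w ∩ Y).Nonempty)).image (fun w => some (Sum.inr w))) := by
    intro o ho
    have ho' := (mem_filter.1 ho).2
    rcases o with _ | w | w
    · exact mem_union_left _ (mem_singleton.2 rfl)
    · exact mem_union_right _ (mem_union_left _ (mem_image.2
        ⟨w, mem_filter.2 ⟨mem_univ _, ho'⟩, rfl⟩))
    · exact mem_union_right _ (mem_union_right _ (mem_image.2
        ⟨w, mem_filter.2 ⟨mem_univ _, ho'⟩, rfl⟩))
  have h1 := (near_card hdeg Y).trans (Nat.mul_le_mul_right d hY)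
  refine (card_le_card h).trans ((card_union_le _ _).trans (add_le_add ?_ ((card_union_le _ _).trans
    (add_le_add (card_image_le.trans h1) (card_image_le.trans h1)))))
  rw [card_singleton]

end GX

open GX in
theorem stmt_GDX : Stmt_GDX.{u} := by
  intro ε hε hε1
  obtain ⟨d0, hd0⟩ := GA.guard2.{u} ε hε hε1
  refine ⟨ε / 100, max d0 2, by positivity, ?_⟩
  intro V _ k θ θ' G EH d Ys UH Hs c0 tu hd hθ hG hHs
  have hd1 : d0 ≤ d := (le_max_left _ _).trans hd
  have hd2 : 2 ≤ d := (le_max_right _ _).trans hd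
  have hdp : (0 : ℝ) < d := by
    have : 0 < d := by omega
    exact_mod_cast this
  have hcard : ∀ Y ∈ Ys, (9 / 10 : ℝ) * d ≤ (Y.card : ℝ) ∧ Y.card ≤ 2 * d := by
    intro Y hY
    have h1 := hG.low Y hY
    have h2 := hG.upp Y hY
    have h3 : θ * d ≤ 1 / 100 * d := mul_le_mul_of_nonneg_right hθ hdp.le
    refine ⟨by linarith, ?_⟩
    have : (Y.card : ℝ) ≤ 2 * d := by linarith
    exact_mod_cast this
  let J : Type u := {j : Finset V × Option (V ⊕ V) // j.1 ∈ sms G d Hs Ys ∧ Ok G j.1 j.2}
  have hshort : ∀ Y ∈ sms G d Hs Ys, Y ∈ Ys ∧ Y.card < d := by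
    intro Y hY
    unfold sms shs at hY
    rw [mem_filter, mem_filter] at hY
    exact hY.1
  obtain ⟨Gd, hGd, hgss⟩ := hd0 G EH d Ys UH Hs J (fun j => St G UH c0 j.1.1 j.1.2)
    (fun j => j.1.1) hd1 hG.deg hG.dis hcard hG.uh2 hG.sum hHs
    (fun j => ⟨j.2.1, St_sub _ _ _ _ _⟩)
    (by
      intro v
      by_cases hv : ∃ Y ∈ sms G d Hs Ys, v ∈ Y
      · obtain ⟨Y, hY, hvY⟩ := hv
        have h1 : (univ.filter (fun j : J => v ∈ St G UH c0 j.1.1 j.1.2)).card ≤
            (univ.filter (fun o => Ok G Y o)).card := by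
          refine card_le_card_of_injOn (fun j => j.1.2) ?_ ?_
          · intro j hj
            have hj' := (mem_filter.1 (mem_coe.1 hj)).2
            have hvj := St_sub _ _ _ _ _ hj'
            have he : j.1.1 = Y := by
              by_contra hne
              exact disjoint_left.1 (hG.dis _ (hshort _ j.2.1).1 _ (hshort _ hY).1 hne) hvj hvY
            rw [mem_coe, mem_filter]
            refine ⟨mem_univ _, ?_⟩
            have := j.2.2
            rwa [he] at this
          · intro j hj j' hj' hjj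
            have a1 := St_sub _ _ _ _ _ (mem_filter.1 (mem_coe.1 hj)).2
            have a2 := St_sub _ _ _ _ _ (mem_filter.1 (mem_coe.1 hj')).2
            have he : j.1.1 = j'.1.1 := by
              by_contra hne
              exact disjoint_left.1 (hG.dis _ (hshort _ j.2.1).1 _ (hshort _ j'.2.1).1 hne) a1 a2
            exact Subtype.ext (Prod.ext he hjj)
        refine h1.trans ((ok_card hG.deg Y (hshort Y hY).2.le).trans ?_)
        have e1 : d * d = d ^ 2 := by ring
        have e2 : d ^ 2 * 4 ≤ d ^ 2 * d ^ 8 := by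
          refine Nat.mul_le_mul_left _ ?_
          calc 4 ≤ 2 ^ 8 := by norm_num
            _ ≤ d ^ 8 := Nat.pow_le_pow_left hd2 8
        have e3 : d ^ 2 * d ^ 8 = d ^ 10 := by ring
        have e4 : 1 ≤ d ^ 2 := Nat.one_le_pow _ _ (by omega)
        rw [e1]
        omega
      · have h1 : univ.filter (fun j : J => v ∈ St G UH c0 j.1.1 j.1.2) = ∅ := by
          rw [filter_eq_empty_iff]
          intro j _ hj
          exact hv ⟨j.1.1, j.2.1, St_sub _ _ _ _ _ hj⟩
        rw [h1, card_empty]
        exact Nat.zero_le _)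
  have tst : ∀ Y (hY : Y ∈ sms G d Hs Ys) o (ho : Ok G Y o),
      |((St G UH c0 Y o ∩ Gd).card : ℝ) - (St G UH c0 Y o).card / Y.card * Real.log d ^ 8| ≤
        ε * Real.log d ^ 8 := fun Y hY o ho => hGd.tst ⟨(Y, o), hY, ho⟩
  have hYp : ∀ Y ∈ sms G d Hs Ys, (0 : ℝ) < Y.card := by
    intro Y hY
    have := (hcard Y (hshort Y hY).1).1
    linarith
  have hT0 : ∀ Y ∈ sms G d Hs Ys, |((Y ∩ Gd).card : ℝ) - Real.log d ^ 8| ≤
      ε * Real.log d ^ 8 := by
    intro Y hY
    have h := tst Y hY none trivial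
    have e : ((St G UH c0 Y none).card : ℝ) / Y.card = 1 := div_self (hYp Y hY).ne'
    rw [e, one_mul] at h
    exact h
  refine ⟨Gd, ⟨hGd.mem, hGd.ind, hGd.ss, hgss, hGd.out, hT0, ?_, ?_⟩⟩
  · intro Y hY w
    by_cases hw : (nb G w ∩ Y).Nonempty
    · have h := (abs_le.1 (tst Y hY (some (Sum.inl w)) hw)).1
      have e : St G UH c0 Y (some (Sum.inl w)) = Y \ nb G w := rfl
      rw [e] at h
      rw [sub_mul]
      linarith
    · have e : Y \ nb G w = Y := by
        rw [Finset.sdiff_eq_self_iff_disjoint, disjoint_comm, disjoint_iff_inter_eq_empty]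
        exact not_nonempty_iff_eq_empty.1 hw
      rw [e, div_self (hYp Y hY).ne', sub_mul, one_mul]
      have := (abs_le.1 (hT0 Y hY)).1
      linarith
  · intro Y hY b
    have h8 : 0 ≤ Real.log d ^ 8 := by
      have : 0 ≤ Real.log d := Real.log_natCast_nonneg d
      positivity
    by_cases hb : (ubl G UH c0 Y b).Nonempty
    · obtain ⟨v, hv⟩ := hb
      unfold ubl at hv
      obtain ⟨hvY, w, hw, hwY, hadj, hcw⟩ := mem_filter.1 hv
      have hne : (nb G w ∩ Y).Nonempty := ⟨v, mem_inter.2 ⟨by simpa [nb] using hadj.symm, hvY⟩⟩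
      have h := (abs_le.1 (tst Y hY (some (Sum.inr w)) hne)).2
      have e : St G UH c0 Y (some (Sum.inr w)) = ubl G UH c0 Y b := by
        show ubl G UH c0 Y (c0 w) = _
        rw [hcw]
      rw [e] at h
      rw [add_mul]
      linarith
    · rw [not_nonempty_iff_eq_empty] at hb
      rw [hb, empty_inter, card_empty]
      simp only [Nat.cast_zero, zero_div, zero_add]
      positivity

end Pool.Agent.Work.MP_db9399_sx.helper12
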